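import Pool.Agent.R713.AS.Gap

/-!
# A certificate for the number of real solutions of `∏ (x - a i) = - v` for all `v` in an interval
-/

set_option autoImplicit false

namespace Pool.Agent.N855.SG

open Polynomial Pool.Agent.R713.AS

/-- the index before `j` -/
def prd {n : ℕ} (j : Fin n) : Fin n := ⟨j.val - 1, by omega⟩

/-- `s` times the point that divides the gap below `a j` in the ratio `t : (s - t)` -/
def pt {n : ℕ} (a : Fin n → ℤ) (s : ℕ) (j : Fin n) (t : ℕ) : ℤ :=
  s * a (prd j) + t * (a j - a (prd j))

/-- `∏ (x - a i) < - v` at a point of the subdivision of the gap below `a j` -/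
def Deep {n : ℕ} (a : Fin n → ℤ) (s : ℕ) (v : ℤ) (j : Fin n) : Prop :=
  ∃ t : Fin s, ∏ i, (pt a s j t - s * a i) < - (v * (s : ℤ) ^ n)

/-- a bound by `v` for `|∏ (x - a i)|` in the gap below `a j` -/
def Shallow {n : ℕ} (a : Fin n → ℤ) (s : ℕ) (v : ℤ) (j : Fin n) : Prop :=
  ∀ t : Fin s, ∏ i, max |pt a s j t - s * a i| |pt a s j (t + 1) - s * a i| ≤ v * (s : ℤ) ^ n

instance {n : ℕ} (a : Fin n → ℤ) (s : ℕ) (v : ℤ) (j : Fin n) : Decidable (Deep a s v j) := by
  unfold Deep
  infer_instance

instance {n : ℕ} (a : Fin n → ℤ) (s : ℕ) (v : ℤ) (j : Fin n) : Decidable (Shallow a s v j) := by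
  unfold Shallow
  infer_instance

/-- the number of the solutions in the gap below `a j` -/
def cnt {n : ℕ} (a : Fin n → ℤ) (s : ℕ) (v : ℤ) (j : Fin n) : ℕ :=
  if (n - j.val) % 2 = 1 then (if j.val = 0 then 1 else if Deep a s v j then 2 else 0) else 0

/-- the certificate -/
def Ok {n : ℕ} (a : Fin n → ℤ) (s : ℕ) (v₁ v₂ : ℤ) (r : ℕ) : Prop :=
  0 < s ∧ 0 < n ∧ 0 < v₁ ∧ v₁ < v₂ ∧ (∀ i j, i < j → a i < a j) ∧
  (∀ j : Fin n, j.val ≠ 0 → (n - j.val) % 2 = 1 → Deep a s v₂ j ∨ Shallow a s v₁ j) ∧
  ∑ j, cnt a s v₂ j = r

instance {n : ℕ} (a : Fin n → ℤ) (s : ℕ) (v₁ v₂ : ℤ) (r : ℕ) : Decidable (Ok a s v₁ v₂ r) := by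
  unfold Ok
  infer_instance

/-- exactly one solution to the left of all roots -/
theorem left' {ι : Type} [Fintype ι] [Nonempty ι] (a : ι → ℝ) (l m v : ℝ) (hg : ∀ i, l ≤ a i)
    (hl : (PP a).eval l = 0) (hv : 0 < v) (hml : m < l) (hm : (PP a).eval m < - v) :
    ({x : ℝ | (PP a).eval x = - v} ∩ Set.Iio l).ncard = 1 := by
  have hcont : Continuous fun z => (PP a).eval z := (PP a).continuous
  obtain ⟨x, ⟨hx1, hx2⟩, hx⟩ := intermediate_value_Icc (show m ≤ l by linarith)
    hcont.continuousOn
    (show - v ∈ Set.Icc ((PP a).eval m) ((PP a).eval l) from ⟨hm.le, by rw [hl]; linarith⟩)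
  simp only at hx
  have hxl : x < l := lt_of_le_of_ne hx2 fun h => by rw [h, hl] at hx; linarith
  have key : ∀ y z : ℝ, y < z → z < l → (PP a).eval y = (PP a).eval z → False := by
    intro y z hyz hzl h
    obtain ⟨c, hc1, hc2, hc⟩ := rolle a y z hyz h
    have hne : ∀ i, c - a i < 0 := fun i => by have := hg i; linarith
    rw [eval_der a c fun i => (sub_ne_zero.1 (hne i).ne)] at hc
    have h1 : (PP a).eval c ≠ 0 := by
      rw [eval_PP]
      exact Finset.prod_ne_zero_iff.2 fun i _ => (hne i).ne
    have h3 := (mul_eq_zero.1 hc).resolve_left h1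
    have h5 : ∑ i, (c - a i)⁻¹ < 0 :=
      Finset.sum_neg (fun i _ => inv_lt_zero.2 (hne i)) Finset.univ_nonempty
    linarith
  have hset : {x : ℝ | (PP a).eval x = - v} ∩ Set.Iio l = {x} := by
    ext z
    simp only [Set.mem_inter_iff, Set.mem_ofPred_eq, Set.mem_Iio, Set.mem_singleton_iff]
    constructor
    · rintro ⟨hz, hzl⟩
      by_contra hne
      rcases lt_or_gt_of_ne hne with h1 | h1
      · exact key z x h1 hxl (by rw [hz, hx])
      · exact key x z h1 hzl (by rw [hz, hx])
    · rintro rfl
      exact ⟨hx, hxl⟩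
  rw [hset, Set.ncard_singleton]

/-- the sign of the product in a gap -/
theorem sign {n : ℕ} (A : Fin n → ℝ) (hA : ∀ i j, i < j → A i < A j) (k : Fin n) (x : ℝ)
    (h1 : x < A k) (h2 : ∀ i, i < k → A i < x) : 0 < (-1 : ℝ) ^ (n - k.val) * ∏ i, (x - A i) := by
  classical
  have e : (-1 : ℝ) ^ (n - k.val) = ∏ i : Fin n, (if i < k then (1 : ℝ) else -1) := by
    rw [Finset.prod_ite, Finset.prod_const_one, one_mul, Finset.prod_const]
    congr 1
    have : (Finset.univ.filter fun i : Fin n => ¬ i < k) = Finset.Ici k := by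
      ext i
      simp
    rw [this, Fin.card_Ici]
  rw [e, ← Finset.prod_mul_distrib]
  refine Finset.prod_pos fun i _ => ?_
  split_ifs with h
  · have := h2 i h
    linarith
  · rcases (not_lt.1 h).eq_or_lt with h3 | h3
    · rw [← h3]
      linarith
    · have := hA k i h3
      linarith

theorem count {n : ℕ} {a : Fin n → ℤ} {s : ℕ} {v₁ v₂ : ℤ} {r : ℕ} (h : Ok a s v₁ v₂ r) (v : ℝ)
    (hv1 : (v₁ : ℝ) < v) (hv2 : v < v₂) :
    {X : ℝ | ∏ i, (X - (a i : ℝ)) = - v}.ncard = r := by
  classical
  obtain ⟨hs, hn, h0, h12, ha, hc, hr⟩ := h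
  have : NeZero n := ⟨hn.ne'⟩
  have : Nonempty (Fin n) := ⟨0⟩
  have hsR : (0 : ℝ) < s := by exact_mod_cast hs
  have hv : 0 < v := lt_trans (by exact_mod_cast h0) hv1
  set A : Fin n → ℝ := fun i => (a i : ℝ) with hAdef
  have hA : ∀ i j, i < j → A i < A j := fun i j hij => by
    simp only [hAdef]
    exact_mod_cast ha i j hij
  have hS : {X : ℝ | ∏ i, (X - (a i : ℝ)) = - v} = {x : ℝ | (PP A).eval x = - v} := by
    ext x
    simp only [Set.mem_ofPred_eq, eval_PP, hAdef]
  rw [hS, ← hr]
  have hroot : ∀ j, (PP A).eval (A j) = 0 := fun j => by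
    rw [eval_PP]
    exact Finset.prod_eq_zero (Finset.mem_univ j) (sub_self _)
  refine ncard_pieces (κ := Fin n) _ ?_ (fun j => {x | x < A j ∧ ∀ i, i < j → A i < x}) ?_ ?_ _ ?_
  · have h1 : PP A + C v ≠ 0 := by
      intro h
      have h2 := congrArg (eval (A 0)) h
      rw [eval_add, eval_C, eval_zero, hroot] at h2
      linarith
    refine (Polynomial.finite_setOfPred_isRoot h1).subset fun x hx => ?_
    simp only [Set.mem_ofPred_eq, IsRoot.def, eval_add, eval_C] at hx ⊢
    linarith
  · intro x hx
    simp only [Set.mem_ofPred_eq] at hx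
    rw [eval_PP] at hx
    have h1 : ∃ i, x < A i := by
      by_contra hcon
      push Not at hcon
      have : 0 ≤ ∏ i, (x - A i) := Finset.prod_nonneg fun i _ => by
        have := hcon i
        linarith
      linarith
    obtain ⟨i0, hi0⟩ := h1
    obtain ⟨j, hj, hmin⟩ := WellFounded.has_min (wellFounded_lt (α := Fin n)) {i | x < A i} ⟨i0, hi0⟩
    refine ⟨j, hj, fun i hi => ?_⟩
    have h2 : A i ≤ x := not_lt.1 fun h3 => hmin i h3 hi
    refine lt_of_le_of_ne h2 fun h3 => ?_
    rw [Finset.prod_eq_zero (Finset.mem_univ i) (by rw [h3, sub_self])] at hx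
    linarith
  · rintro k k' x ⟨hk1, hk2⟩ ⟨hk1', hk2'⟩
    rcases lt_trichotomy k k' with h3 | h3 | h3
    · exact absurd (hk2' k h3) (not_lt.2 hk1.le)
    · exact h3
    · exact absurd (hk2 k' h3) (not_lt.2 hk1'.le)
  · intro k
    unfold cnt
    by_cases hp : (n - k.val) % 2 = 1
    · rw [if_pos hp]
      by_cases hk0 : k.val = 0
      · rw [if_pos hk0]
        have hI : {x | x < A k ∧ ∀ i, i < k → A i < x} = Set.Iio (A k) := by
          ext x
          simp only [Set.mem_ofPred_eq, Set.mem_Iio, and_iff_left_iff_imp]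
          intro _ i hi
          exact absurd hi (by rw [Fin.lt_def]; omega)
        rw [hI]
        have hg : ∀ i, A k ≤ A i := fun i => by
          rcases eq_or_ne k i with h3 | h3
          · rw [h3]
          · exact (hA k i (lt_of_le_of_ne (by rw [Fin.le_def]; omega) h3)).le
        refine left' A (A k) (A k - (1 + v)) v hg (hroot k) hv (by linarith) ?_
        rw [eval_PP]
        have h3 := sign A hA k (A k - (1 + v)) (by linarith) (fun i hi => absurd hi (by
          rw [Fin.lt_def]; omega))
        have hodd : Odd (n - k.val) := Nat.odd_iff.2 hp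
        rw [hodd.neg_one_pow] at h3
        have h4 : 1 + v ≤ |∏ i, (A k - (1 + v) - A i)| := by
          rw [Finset.abs_prod]
          calc 1 + v = |A k - (1 + v) - A k| * 1 := by
                rw [mul_one, abs_of_nonpos (by linarith)]; ring
            _ ≤ |A k - (1 + v) - A k| * ∏ i ∈ Finset.univ.erase k, |A k - (1 + v) - A i| := by
                refine mul_le_mul_of_nonneg_left ?_ (abs_nonneg _)
                have : ∀ i ∈ Finset.univ.erase k, (1 : ℝ) ≤ |A k - (1 + v) - A i| := fun i _ => by
                  have := hg i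
                  rw [abs_of_nonpos (by linarith)]
                  linarith
                calc (1 : ℝ) = ∏ i ∈ Finset.univ.erase k, (1 : ℝ) := by simp
                  _ ≤ _ := Finset.prod_le_prod (fun _ _ => zero_le_one) this
            _ = _ := Finset.mul_prod_erase Finset.univ (fun i => |A k - (1 + v) - A i|)
                (Finset.mem_univ k)
        rw [abs_of_neg (by linarith)] at h4
        linarith
      · rw [if_neg hk0]
        have hprd : prd k < k := by
          rw [Fin.lt_def]
          show k.val - 1 < k.val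
          omega
        have hI : {x | x < A k ∧ ∀ i, i < k → A i < x} = Set.Ioo (A (prd k)) (A k) := by
          ext x
          simp only [Set.mem_ofPred_eq, Set.mem_Ioo]
          constructor
          · rintro ⟨h3, h4⟩
            exact ⟨h4 _ hprd, h3⟩
          · rintro ⟨h3, h4⟩
            refine ⟨h4, fun i hi => lt_of_le_of_lt ?_ h3⟩
            rcases eq_or_ne i (prd k) with h5 | h5
            · rw [h5]
            · refine (hA i _ (lt_of_le_of_ne ?_ h5)).le
              rw [Fin.le_def]
              show i.val ≤ k.val - 1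
              have := Fin.lt_def.1 hi
              omega
        rw [hI]
        have hd : 0 < A k - A (prd k) := sub_pos.2 (hA _ _ hprd)
        have hpt : ∀ t : ℕ, ((pt a s k t : ℤ) : ℝ) = s * A (prd k) + t * (A k - A (prd k)) := by
          intro t
          simp only [pt, hAdef]
          push_cast
          ring
        by_cases hD : Deep a s v₂ k
        · rw [if_pos hD]
          obtain ⟨t, ht⟩ := hD
          have ht0 : (t : ℕ) ≠ 0 := by
            intro h3
            have h4 : ∏ i, (pt a s k t - s * a i) = 0 :=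
              Finset.prod_eq_zero (Finset.mem_univ (prd k)) (by rw [h3]; simp [pt])
            rw [h4] at ht
            have : 0 < v₂ * (s : ℤ) ^ n := mul_pos (h0.trans h12) (pow_pos (by exact_mod_cast hs) _)
            linarith
          have ht1 : (0 : ℝ) < (t : ℕ) := by exact_mod_cast Nat.pos_of_ne_zero ht0
          have ht2 : ((t : ℕ) : ℝ) < s := by exact_mod_cast t.isLt
          refine gap A (A (prd k)) (A k) ((pt a s k t : ℤ) / s) v ?_ (hroot _) (hroot _) ?_ ?_ hv ?_
          · intro i
            rcases lt_or_ge i k with h3 | h3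
            · left
              rcases eq_or_ne i (prd k) with h5 | h5
              · rw [h5]
              · refine (hA i _ (lt_of_le_of_ne ?_ h5)).le
                rw [Fin.le_def]
                show i.val ≤ k.val - 1
                have := Fin.lt_def.1 h3
                omega
            · right
              rcases h3.eq_or_lt with h5 | h5
              · rw [h5]
              · exact (hA _ _ h5).le
          · rw [lt_div_iff₀ hsR, hpt]
            nlinarith
          · rw [div_lt_iff₀ hsR, hpt]
            nlinarith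
          · rw [eval_PP]
            have e : ∏ i, ((pt a s k t : ℤ) / (s : ℝ) - A i) =
                ((∏ i, (pt a s k t - s * a i) : ℤ) : ℝ) / (s : ℝ) ^ n := by
              rw [eq_div_iff (by positivity)]
              push_cast
              rw [show (s : ℝ) ^ n = ∏ _i : Fin n, (s : ℝ) by simp, ← Finset.prod_mul_distrib]
              refine Finset.prod_congr rfl fun i _ => ?_
              simp only [hAdef]
              field_simp
            rw [e, div_lt_iff₀ (by positivity)]
            have h5 : ((∏ i, (pt a s k t - s * a i) : ℤ) : ℝ) < - (v₂ * (s : ℝ) ^ n) := by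
              exact_mod_cast ht
            have h6 : v * (s : ℝ) ^ n ≤ v₂ * (s : ℝ) ^ n :=
              mul_le_mul_of_nonneg_right hv2.le (by positivity)
            linarith
        · rw [if_neg hD]
          have hSh : Shallow a s v₁ k := (hc k hk0 hp).resolve_left hD
          have hset : {x : ℝ | (PP A).eval x = - v} ∩ Set.Ioo (A (prd k)) (A k) = ∅ := by
            rw [Set.eq_empty_iff_forall_notMem]
            rintro x ⟨hx, hx1, hx2⟩
            simp only [Set.mem_ofPred_eq] at hx
            rw [eval_PP] at hx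
            set y : ℝ := s * (x - A (prd k)) / (A k - A (prd k)) with hy
            have hy0 : 0 ≤ y := div_nonneg (mul_nonneg hsR.le (by linarith)) hd.le
            have hys : y < s := by
              rw [hy, div_lt_iff₀ hd]
              exact mul_lt_mul_of_pos_left (by linarith) hsR
            have hf1 : (⌊y⌋₊ : ℝ) ≤ y := Nat.floor_le hy0
            have hf2 : y < (⌊y⌋₊ : ℝ) + 1 := Nat.lt_floor_add_one y
            have hf3 : ⌊y⌋₊ < s := by
              have : (⌊y⌋₊ : ℝ) < s := lt_of_le_of_lt hf1 hys
              exact_mod_cast this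
            have hsx : (s : ℝ) * x = s * A (prd k) + y * (A k - A (prd k)) := by
              rw [hy]
              field_simp
              ring
            have hlo : ((pt a s k ⌊y⌋₊ : ℤ) : ℝ) ≤ s * x := by
              rw [hpt, hsx]
              have := mul_le_mul_of_nonneg_right hf1 hd.le
              linarith
            have hhi : s * x ≤ ((pt a s k (⌊y⌋₊ + 1) : ℤ) : ℝ) := by
              rw [hpt, hsx]
              have := mul_le_mul_of_nonneg_right hf2.le hd.le
              push_cast
              linarith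
            have h3 := hSh ⟨⌊y⌋₊, hf3⟩
            have h4 : (s : ℝ) ^ n * |∏ i, (x - A i)| ≤
                ((∏ i, max |pt a s k ⌊y⌋₊ - s * a i| |pt a s k (⌊y⌋₊ + 1) - s * a i| : ℤ) : ℝ) := by
              rw [Finset.abs_prod, show (s : ℝ) ^ n = ∏ _i : Fin n, (s : ℝ) by simp,
                ← Finset.prod_mul_distrib]
              push_cast
              refine Finset.prod_le_prod (fun i _ => by positivity) fun i _ => ?_
              have h5 : (s : ℝ) * |x - A i| = |s * x - s * A i| := by
                rw [← mul_sub, abs_mul, abs_of_pos hsR]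
              rw [h5, abs_le]
              constructor
              · have h6 := neg_abs_le (((pt a s k ⌊y⌋₊ : ℤ) : ℝ) - s * (a i : ℝ))
                have h7 := le_max_left |((pt a s k ⌊y⌋₊ : ℤ) : ℝ) - s * (a i : ℝ)|
                  |((pt a s k (⌊y⌋₊ + 1) : ℤ) : ℝ) - s * (a i : ℝ)|
                simp only [hAdef]
                linarith
              · have h6 := le_abs_self (((pt a s k (⌊y⌋₊ + 1) : ℤ) : ℝ) - s * (a i : ℝ))
                have h7 := le_max_right |((pt a s k ⌊y⌋₊ : ℤ) : ℝ) - s * (a i : ℝ)|
                  |((pt a s k (⌊y⌋₊ + 1) : ℤ) : ℝ) - s * (a i : ℝ)|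
                simp only [hAdef]
                linarith
            have h5 : ((∏ i, max |pt a s k ⌊y⌋₊ - s * a i| |pt a s k (⌊y⌋₊ + 1) - s * a i| : ℤ) : ℝ)
                ≤ v₁ * (s : ℝ) ^ n := by
              exact_mod_cast h3
            rw [hx, abs_neg, abs_of_pos hv] at h4
            have h6 : (s : ℝ) ^ n * v₁ < (s : ℝ) ^ n * v := mul_lt_mul_of_pos_left hv1 (by positivity)
            linarith
          rw [hset, Set.ncard_empty]
    · rw [if_neg hp]
      have hset : {x : ℝ | (PP A).eval x = - v} ∩ {x | x < A k ∧ ∀ i, i < k → A i < x} = ∅ := by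
        rw [Set.eq_empty_iff_forall_notMem]
        rintro x ⟨hx, hx1, hx2⟩
        simp only [Set.mem_ofPred_eq] at hx
        rw [eval_PP] at hx
        have h3 := sign A hA k x hx1 hx2
        have heven : Even (n - k.val) := by
          rw [Nat.even_iff]
          omega
        rw [heven.neg_one_pow, one_mul] at h3
        linarith
      rw [hset, Set.ncard_empty]

end Pool.Agent.N855.SG
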