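import Pool.Agent.N855.SG.Exc

/-!
# Data and certificates for the degrees from 4 to 13
-/

set_option autoImplicit false
set_option maxRecDepth 100000

namespace Pool.Agent.N855.SG

theorem chk4a : Chk (![1, 7, 18, 20] : Fin 4 → ℤ)
    (![0, 11, 13] : Fin 3 → ℤ) 2520 := by
  decide +kernel

theorem ok4a_0 : Ok (![1, 7, 18, 20] : Fin 4 → ℤ)
    8 2780 5561 0 := by
  decide +kernel

theorem ok4a_2 : Ok (![1, 7, 18, 20] : Fin 4 → ℤ)
    8 280 2084 2 := by
  decide +kernel

theorem ok4a_4 : Ok (![1, 7, 18, 20] : Fin 4 → ℤ)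
    8 1 215 4 := by
  decide +kernel

theorem deg4 (m : ℕ) (hm : 2 ≤ m) (r₁ r₂ : ℕ) (h : r₁ + 2 * r₂ = 4) :
    Large 4 r₁ r₂ (excess 4 r₁) m := by
  have h2 : r₂ ≤ 2 := by omega
  interval_cases r₂
  · obtain rfl : r₁ = 4 := by omega
    exact of_ok chk4a ok4a_4 0 _ m (by norm_num) (by decide) hm
  · obtain rfl : r₁ = 2 := by omega
    exact of_ok chk4a ok4a_2 1 _ m (by norm_num) (by decide) hm
  · obtain rfl : r₁ = 0 := by omega
    exact of_ok chk4a ok4a_0 2 _ m (by norm_num) (by decide) hm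

theorem chk5a : Chk (![0, 4, 8, 16, 17] : Fin 5 → ℤ)
    (![1, 2, 10, 14] : Fin 4 → ℤ) 5040 := by
  decide +kernel

theorem ok5a_1 : Ok (![0, 4, 8, 16, 17] : Fin 5 → ℤ)
    8 3623 7247 1 := by
  decide +kernel

theorem ok5a_3 : Ok (![0, 4, 8, 16, 17] : Fin 5 → ℤ)
    8 566 2639 3 := by
  decide +kernel

theorem ok5a_5 : Ok (![0, 4, 8, 16, 17] : Fin 5 → ℤ)
    8 1 438 5 := by
  decide +kernel

theorem deg5 (m : ℕ) (hm : 2 ≤ m) (r₁ r₂ : ℕ) (h : r₁ + 2 * r₂ = 5) :
    Large 5 r₁ r₂ (excess 5 r₁) m := by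
  have h2 : r₂ ≤ 2 := by omega
  interval_cases r₂
  · obtain rfl : r₁ = 5 := by omega
    exact of_ok chk5a ok5a_5 0 _ m (by norm_num) (by decide) hm
  · obtain rfl : r₁ = 3 := by omega
    exact of_ok chk5a ok5a_3 1 _ m (by norm_num) (by decide) hm
  · obtain rfl : r₁ = 1 := by omega
    exact of_ok chk5a ok5a_1 2 _ m (by norm_num) (by decide) hm

theorem chk6a : Chk (![2, 4, 21, 22, 40, 45] : Fin 6 → ℤ)
    (![0, 10, 12, 29, 37] : Fin 5 → ℤ) 6652800 := by
  decide +kernel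

theorem ok6a_0 : Ok (![2, 4, 21, 22, 40, 45] : Fin 6 → ℤ)
    8 5875304 11750609 0 := by
  decide +kernel

theorem ok6a_2 : Ok (![2, 4, 21, 22, 40, 45] : Fin 6 → ℤ)
    8 691126 4406477 2 := by
  decide +kernel

theorem ok6a_4 : Ok (![2, 4, 21, 22, 40, 45] : Fin 6 → ℤ)
    8 46993 531467 4 := by
  decide +kernel

theorem ok6a_6 : Ok (![2, 4, 21, 22, 40, 45] : Fin 6 → ℤ)
    8 1 37089 6 := by
  decide +kernel

theorem deg6 (m : ℕ) (hm : 2 ≤ m) (r₁ r₂ : ℕ) (h : r₁ + 2 * r₂ = 6) :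
    Large 6 r₁ r₂ (excess 6 r₁) m := by
  have h2 : r₂ ≤ 3 := by omega
  interval_cases r₂
  · obtain rfl : r₁ = 6 := by omega
    exact of_ok chk6a ok6a_6 0 _ m (by norm_num) (by decide) hm
  · obtain rfl : r₁ = 4 := by omega
    exact of_ok chk6a ok6a_4 1 _ m (by norm_num) (by decide) hm
  · obtain rfl : r₁ = 2 := by omega
    exact of_ok chk6a ok6a_2 2 _ m (by norm_num) (by decide) hm
  · obtain rfl : r₁ = 0 := by omega
    exact of_ok chk6a ok6a_0 3 _ m (by norm_num) (by decide) hm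

theorem chk7a : Chk (![0, 18, 27, 58, 64, 89, 101] : Fin 7 → ℤ)
    (![1, 13, 38, 44, 75, 84] : Fin 6 → ℤ) 13967553600 := by
  decide +kernel

theorem ok7a_1 : Ok (![0, 18, 27, 58, 64, 89, 101] : Fin 7 → ℤ)
    8 30659731200 61319462401 1 := by
  decide +kernel

theorem ok7a_3 : Ok (![0, 18, 27, 58, 64, 89, 101] : Fin 7 → ℤ)
    8 4787582905 22233080596 3 := by
  decide +kernel

theorem ok7a_5 : Ok (![0, 18, 27, 58, 64, 89, 101] : Fin 7 → ℤ)
    8 1182879141 3504090365 5 := by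
  decide +kernel

theorem ok7a_7 : Ok (![0, 18, 27, 58, 64, 89, 101] : Fin 7 → ℤ)
    8 1 898954559 7 := by
  decide +kernel

theorem deg7 (m : ℕ) (hm : 2 ≤ m) (r₁ r₂ : ℕ) (h : r₁ + 2 * r₂ = 7) :
    Large 7 r₁ r₂ (excess 7 r₁) m := by
  have h2 : r₂ ≤ 3 := by omega
  interval_cases r₂
  · obtain rfl : r₁ = 7 := by omega
    exact of_ok chk7a ok7a_7 0 _ m (by norm_num) (by decide) hm
  · obtain rfl : r₁ = 5 := by omega
    exact of_ok chk7a ok7a_5 1 _ m (by norm_num) (by decide) hm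
  · obtain rfl : r₁ = 3 := by omega
    exact of_ok chk7a ok7a_3 2 _ m (by norm_num) (by decide) hm
  · obtain rfl : r₁ = 1 := by omega
    exact of_ok chk7a ok7a_1 3 _ m (by norm_num) (by decide) hm

theorem chk8a : Chk (![1, 2, 11, 20, 30, 39, 48, 49] : Fin 8 → ℤ)
    (![0, 4, 9, 23, 27, 41, 46] : Fin 7 → ℤ) 1210809600 := by
  decide +kernel

theorem ok8a_0 : Ok (![1, 2, 11, 20, 30, 39, 48, 49] : Fin 8 → ℤ)
    8 2219653335 4439306671 0 := by
  decide +kernel

theorem ok8a_4 : Ok (![1, 2, 11, 20, 30, 39, 48, 49] : Fin 8 → ℤ)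
    8 133974727 1470587366 4 := by
  decide +kernel

theorem ok8a_8 : Ok (![1, 2, 11, 20, 30, 39, 48, 49] : Fin 8 → ℤ)
    8 1 103718931 8 := by
  decide +kernel

theorem chk8b : Chk (![1, 3, 8, 10, 20, 27, 35, 42] : Fin 8 → ℤ)
    (![0, 15, 17, 28] : Fin 4 → ℤ) 190512000 := by
  decide +kernel

theorem ok8b_2 : Ok (![1, 3, 8, 10, 20, 27, 35, 42] : Fin 8 → ℤ)
    8 383144483 3542478997 2 := by
  decide +kernel

theorem ok8b_6 : Ok (![1, 3, 8, 10, 20, 27, 35, 42] : Fin 8 → ℤ)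
    8 10949555 29811719 6 := by
  decide +kernel

theorem deg8 (m : ℕ) (hm : 2 ≤ m) (r₁ r₂ : ℕ) (h : r₁ + 2 * r₂ = 8) :
    Large 8 r₁ r₂ (excess 8 r₁) m := by
  have h2 : r₂ ≤ 4 := by omega
  interval_cases r₂
  · obtain rfl : r₁ = 8 := by omega
    exact of_ok chk8a ok8a_8 0 _ m (by norm_num) (by decide) hm
  · obtain rfl : r₁ = 6 := by omega
    exact of_ok chk8b ok8b_6 1 _ m (by norm_num) (by decide) hm
  · obtain rfl : r₁ = 4 := by omega
    exact of_ok chk8a ok8a_4 2 _ m (by norm_num) (by decide) hm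
  · obtain rfl : r₁ = 2 := by omega
    exact of_ok chk8b ok8b_2 3 _ m (by norm_num) (by decide) hm
  · obtain rfl : r₁ = 0 := by omega
    exact of_ok chk8a ok8a_0 4 _ m (by norm_num) (by decide) hm

theorem chk9a : Chk (![0, 24, 30, 83, 86, 133, 157, 181, 197] : Fin 9 → ℤ)
    (![1, 17, 41, 65, 112, 115, 168, 174] : Fin 8 → ℤ) 3377425033382400 := by
  decide +kernel

theorem ok9a_1 : Ok (![0, 24, 30, 83, 86, 133, 157, 181, 197] : Fin 9 → ℤ)
    8 9731825844998400 19463651689996801 1 := by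
  decide +kernel

theorem ok9a_3 : Ok (![0, 24, 30, 83, 86, 133, 157, 181, 197] : Fin 9 → ℤ)
    8 2940687012556800 6890439597249599 3 := by
  decide +kernel

theorem ok9a_5 : Ok (![0, 24, 30, 83, 86, 133, 157, 181, 197] : Fin 9 → ℤ)
    8 379857769158902 1989588447475199 5 := by
  decide +kernel

theorem ok9a_7 : Ok (![0, 24, 30, 83, 86, 133, 157, 181, 197] : Fin 9 → ℤ)
    8 30519395973723 289644423868799 7 := by
  decide +kernel

theorem ok9a_9 : Ok (![0, 24, 30, 83, 86, 133, 157, 181, 197] : Fin 9 → ℤ)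
    8 1 23930440058322 9 := by
  decide +kernel

theorem deg9 (m : ℕ) (hm : 2 ≤ m) (r₁ r₂ : ℕ) (h : r₁ + 2 * r₂ = 9) :
    Large 9 r₁ r₂ (excess 9 r₁) m := by
  have h2 : r₂ ≤ 4 := by omega
  interval_cases r₂
  · obtain rfl : r₁ = 9 := by omega
    exact of_ok chk9a ok9a_9 0 _ m (by norm_num) (by decide) hm
  · obtain rfl : r₁ = 7 := by omega
    exact of_ok chk9a ok9a_7 1 _ m (by norm_num) (by decide) hm
  · obtain rfl : r₁ = 5 := by omega
    exact of_ok chk9a ok9a_5 2 _ m (by norm_num) (by decide) hm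
  · obtain rfl : r₁ = 3 := by omega
    exact of_ok chk9a ok9a_3 3 _ m (by norm_num) (by decide) hm
  · obtain rfl : r₁ = 1 := by omega
    exact of_ok chk9a ok9a_1 4 _ m (by norm_num) (by decide) hm

theorem chk10a : Chk (![-23738, -20885, -20231, -11881, -12, 12, 11881, 20231, 20885, 23738] : Fin 10 → ℤ)
    (![-23750, -20667, -20449, -11857, -436, 436, 11857, 20449, 20667] : Fin 9 → ℤ) 2690412768074211426290642227627411814400 := by
  decide +kernel

theorem ok10a_0 : Ok (![-23738, -20885, -20231, -11881, -12, 12, 11881, 20231, 20885, 23738] : Fin 10 → ℤ)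
    8 428942229043359858286790918965820500870313 857884458086719716573581837931641001740627 0 := by
  decide +kernel

theorem ok10a_4 : Ok (![-23738, -20885, -20231, -11881, -12, 12, 11881, 20231, 20885, 23738] : Fin 10 → ℤ)
    8 117140353989616993733041419968657029876849 248813959435055760969738678476745234490890 4 := by
  decide +kernel

theorem ok10a_8 : Ok (![-23738, -20885, -20231, -11881, -12, 12, 11881, 20231, 20885, 23738] : Fin 10 → ℤ)
    8 2557771310786158752816266272932595200 78093569326411329155360946645771353251232 8 := by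
  decide +kernel

theorem ok10a_10 : Ok (![-23738, -20885, -20231, -11881, -12, 12, 11881, 20231, 20885, 23738] : Fin 10 → ℤ)
    8 1 2044845001545964305902020977613185599 10 := by
  decide +kernel

theorem chk10b : Chk (![-45, -41, -32, -26, -8, 8, 26, 32, 41, 45] : Fin 10 → ℤ)
    (![-36, -23, -10, 10, 23, 36] : Fin 6 → ℤ) 58312217779200 := by
  decide +kernel

theorem ok10b_2 : Ok (![-45, -41, -32, -26, -8, 8, 26, 32, 41, 45] : Fin 10 → ℤ)
    8 73230613747200 150806259302399 2 := by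
  decide +kernel

theorem ok10b_6 : Ok (![-45, -41, -32, -26, -8, 8, 26, 32, 41, 45] : Fin 10 → ℤ)
    8 32442986186790 54142022465632 6 := by
  decide +kernel

theorem deg10 (m : ℕ) (hm : 2 ≤ m) (r₁ r₂ : ℕ) (h : r₁ + 2 * r₂ = 10) :
    Large 10 r₁ r₂ (excess 10 r₁) m := by
  have h2 : r₂ ≤ 5 := by omega
  interval_cases r₂
  · obtain rfl : r₁ = 10 := by omega
    exact of_ok chk10a ok10a_10 0 _ m (by norm_num) (by decide) hm
  · obtain rfl : r₁ = 8 := by omega
    exact of_ok chk10a ok10a_8 1 _ m (by norm_num) (by decide) hm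
  · obtain rfl : r₁ = 6 := by omega
    exact of_ok chk10b ok10b_6 2 _ m (by norm_num) (by decide) hm
  · obtain rfl : r₁ = 4 := by omega
    exact of_ok chk10a ok10a_4 3 _ m (by norm_num) (by decide) hm
  · obtain rfl : r₁ = 2 := by omega
    exact of_ok chk10b ok10b_2 4 _ m (by norm_num) (by decide) hm
  · obtain rfl : r₁ = 0 := by omega
    exact of_ok chk10a ok10a_0 5 _ m (by norm_num) (by decide) hm

theorem chk11a : Chk (![-5, -2, -1, 3, 7, 12, 14, 20, 22, 24, 30] : Fin 11 → ℤ)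
    (![0, 2, 10, 19, 23] : Fin 5 → ℤ) 11176704000 := by
  decide +kernel

theorem ok11a_1 : Ok (![-5, -2, -1, 3, 7, 12, 14, 20, 22, 24, 30] : Fin 11 → ℤ)
    8 2627148030417 5254296060835 1 := by
  decide +kernel

theorem ok11a_3 : Ok (![-5, -2, -1, 3, 7, 12, 14, 20, 22, 24, 30] : Fin 11 → ℤ)
    8 20181279727 1474461049387 3 := by
  decide +kernel

theorem ok11a_5 : Ok (![-5, -2, -1, 3, 7, 12, 14, 20, 22, 24, 30] : Fin 11 → ℤ)
    8 7993068409 12819869999 5 := by
  decide +kernel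

theorem ok11a_7 : Ok (![-5, -2, -1, 3, 7, 12, 14, 20, 22, 24, 30] : Fin 11 → ℤ)
    8 3845632553 5639345711 7 := by
  decide +kernel

theorem ok11a_9 : Ok (![-5, -2, -1, 3, 7, 12, 14, 20, 22, 24, 30] : Fin 11 → ℤ)
    64 2795283095 2863734094 9 := by
  decide +kernel

theorem ok11a_11 : Ok (![-5, -2, -1, 3, 7, 12, 14, 20, 22, 24, 30] : Fin 11 → ℤ)
    8 1 2671930799 11 := by
  decide +kernel

theorem deg11 (m : ℕ) (hm : 2 ≤ m) (r₁ r₂ : ℕ) (h : r₁ + 2 * r₂ = 11) :
    Large 11 r₁ r₂ (excess 11 r₁) m := by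
  have h2 : r₂ ≤ 5 := by omega
  interval_cases r₂
  · obtain rfl : r₁ = 11 := by omega
    exact of_ok chk11a ok11a_11 0 _ m (by norm_num) (by decide) hm
  · obtain rfl : r₁ = 9 := by omega
    exact of_ok chk11a ok11a_9 1 _ m (by norm_num) (by decide) hm
  · obtain rfl : r₁ = 7 := by omega
    exact of_ok chk11a ok11a_7 2 _ m (by norm_num) (by decide) hm
  · obtain rfl : r₁ = 5 := by omega
    exact of_ok chk11a ok11a_5 3 _ m (by norm_num) (by decide) hm
  · obtain rfl : r₁ = 3 := by omega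
    exact of_ok chk11a ok11a_3 4 _ m (by norm_num) (by decide) hm
  · obtain rfl : r₁ = 1 := by omega
    exact of_ok chk11a ok11a_1 5 _ m (by norm_num) (by decide) hm

theorem chk12a : Chk (![-148, -146, -121, -94, -47, -35, 35, 47, 94, 121, 146, 148] : Fin 12 → ℤ)
    (![-151, -140, -127, -86, -61, -22, 22, 61, 86, 127, 140] : Fin 11 → ℤ) 67440294559676054016000 := by
  decide +kernel

theorem ok12a_0 : Ok (![-148, -146, -121, -94, -47, -35, 35, 47, 94, 121, 146, 148] : Fin 12 → ℤ)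
    8 125248345376030195412665 250496690752060390825331 0 := by
  decide +kernel

theorem ok12a_4 : Ok (![-148, -146, -121, -94, -47, -35, 35, 47, 94, 121, 146, 148] : Fin 12 → ℤ)
    8 11939727882459220004700 81837083202080939982437 4 := by
  decide +kernel

theorem ok12a_8 : Ok (![-148, -146, -121, -94, -47, -35, 35, 47, 94, 121, 146, 148] : Fin 12 → ℤ)
    8 3900256847705054705559 8865227649474104831999 8 := by
  decide +kernel

theorem ok12a_12 : Ok (![-148, -146, -121, -94, -47, -35, 35, 47, 94, 121, 146, 148] : Fin 12 → ℤ)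
    8 1 3042158454737502463999 12 := by
  decide +kernel

theorem chk12b : Chk (![-8, -2, 1, 3, 9, 10, 21, 24, 27, 28, 30, 33] : Fin 12 → ℤ)
    (![0, 6, 12, 19] : Fin 4 → ℤ) 1629563443200 := by
  decide +kernel

theorem ok12b_2 : Ok (![-8, -2, 1, 3, 9, 10, 21, 24, 27, 28, 30, 33] : Fin 12 → ℤ)
    8 3617506787203 171905859173373 2 := by
  decide +kernel

theorem ok12b_6 : Ok (![-8, -2, 1, 3, 9, 10, 21, 24, 27, 28, 30, 33] : Fin 12 → ℤ)
    8 364701564770 528271743999 6 := by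
  decide +kernel

theorem ok12b_10 : Ok (![-8, -2, 1, 3, 9, 10, 21, 24, 27, 28, 30, 33] : Fin 12 → ℤ)
    8 23439649222 72294544055 10 := by
  decide +kernel

theorem deg12 (m : ℕ) (hm : 2 ≤ m) (r₁ r₂ : ℕ) (h : r₁ + 2 * r₂ = 12) :
    Large 12 r₁ r₂ (excess 12 r₁) m := by
  have h2 : r₂ ≤ 6 := by omega
  interval_cases r₂
  · obtain rfl : r₁ = 12 := by omega
    exact of_ok chk12a ok12a_12 0 _ m (by norm_num) (by decide) hm
  · obtain rfl : r₁ = 10 := by omega
    exact of_ok chk12b ok12b_10 1 _ m (by norm_num) (by decide) hm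
  · obtain rfl : r₁ = 8 := by omega
    exact of_ok chk12a ok12a_8 2 _ m (by norm_num) (by decide) hm
  · obtain rfl : r₁ = 6 := by omega
    exact of_ok chk12b ok12b_6 3 _ m (by norm_num) (by decide) hm
  · obtain rfl : r₁ = 4 := by omega
    exact of_ok chk12a ok12a_4 4 _ m (by norm_num) (by decide) hm
  · obtain rfl : r₁ = 2 := by omega
    exact of_ok chk12b ok12b_2 5 _ m (by norm_num) (by decide) hm
  · obtain rfl : r₁ = 0 := by omega
    exact of_ok chk12a ok12a_0 6 _ m (by norm_num) (by decide) hm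

theorem chk13a : Chk (![-42, -30, -24, -4, -3, 6, 9, 21, 22, 36, 45, 48, 54] : Fin 13 → ℤ)
    (![0, 12, 18, 24] : Fin 4 → ℤ) 38014456002969600 := by
  decide +kernel

theorem ok13a_1 : Ok (![-42, -30, -24, -4, -3, 6, 9, 21, 22, 36, 45, 48, 54] : Fin 13 → ℤ)
    8 8722189907675439808 17444379815350879617 1 := by
  decide +kernel

theorem ok13a_3 : Ok (![-42, -30, -24, -4, -3, 6, 9, 21, 22, 36, 45, 48, 54] : Fin 13 → ℤ)
    8 4658372050075335553 6105902686314804259 3 := by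
  decide +kernel

theorem ok13a_5 : Ok (![-42, -30, -24, -4, -3, 6, 9, 21, 22, 36, 45, 48, 54] : Fin 13 → ℤ)
    8 964917709391766223 3035919184630487764 5 := by
  decide +kernel

theorem ok13a_7 : Ok (![-42, -30, -24, -4, -3, 6, 9, 21, 22, 36, 45, 48, 54] : Fin 13 → ℤ)
    8 8616423435169360 583724734326528261 7 := by
  decide +kernel

theorem ok13a_9 : Ok (![-42, -30, -24, -4, -3, 6, 9, 21, 22, 36, 45, 48, 54] : Fin 13 → ℤ)
    8 2872649349636225 6258965426043226 9 := by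
  decide +kernel

theorem ok13a_11 : Ok (![-42, -30, -24, -4, -3, 6, 9, 21, 22, 36, 45, 48, 54] : Fin 13 → ℤ)
    8 1710792684930261 2200666661363349 11 := by
  decide +kernel

theorem ok13a_13 : Ok (![-42, -30, -24, -4, -3, 6, 9, 21, 22, 36, 45, 48, 54] : Fin 13 → ℤ)
    8 1 1321433872850309 13 := by
  decide +kernel

theorem deg13 (m : ℕ) (hm : 2 ≤ m) (r₁ r₂ : ℕ) (h : r₁ + 2 * r₂ = 13) :
    Large 13 r₁ r₂ (excess 13 r₁) m := by
  have h2 : r₂ ≤ 6 := by omega
  interval_cases r₂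
  · obtain rfl : r₁ = 13 := by omega
    exact of_ok chk13a ok13a_13 0 _ m (by norm_num) (by decide) hm
  · obtain rfl : r₁ = 11 := by omega
    exact of_ok chk13a ok13a_11 1 _ m (by norm_num) (by decide) hm
  · obtain rfl : r₁ = 9 := by omega
    exact of_ok chk13a ok13a_9 2 _ m (by norm_num) (by decide) hm
  · obtain rfl : r₁ = 7 := by omega
    exact of_ok chk13a ok13a_7 3 _ m (by norm_num) (by decide) hm
  · obtain rfl : r₁ = 5 := by omega
    exact of_ok chk13a ok13a_5 4 _ m (by norm_num) (by decide) hm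
  · obtain rfl : r₁ = 3 := by omega
    exact of_ok chk13a ok13a_3 5 _ m (by norm_num) (by decide) hm
  · obtain rfl : r₁ = 1 := by omega
    exact of_ok chk13a ok13a_1 6 _ m (by norm_num) (by decide) hm

end Pool.Agent.N855.SG
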