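import Pool.Agent.N855.SG.Exc

/-!
# Data and certificates for the degrees from 14 to 19
-/

set_option autoImplicit false
set_option maxRecDepth 100000

namespace Pool.Agent.N855.SG

theorem chk14a : Chk (![-33, -25, -21, -19, -17, -13, -1, 1, 13, 17, 19, 21, 25, 33] : Fin 14 → ℤ)
    (![-23, -11, -3, 3, 11, 23] : Fin 6 → ℤ) 36257585430528000 := by
  decide +kernel

theorem ok14a_0 : Ok (![-33, -25, -21, -19, -17, -13, -1, 1, 13, 17, 19, 21, 25, 33] : Fin 14 → ℤ)
    8 12889243213439843250 25778486426879686501 0 := by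
  decide +kernel

theorem ok14a_4 : Ok (![-33, -25, -21, -19, -17, -13, -1, 1, 13, 17, 19, 21, 25, 33] : Fin 14 → ℤ)
    8 13399715472998400 6855979790499839999 4 := by
  decide +kernel

theorem ok14a_8 : Ok (![-33, -25, -21, -19, -17, -13, -1, 1, 13, 17, 19, 21, 25, 33] : Fin 14 → ℤ)
    8 7138004360711918 8617687576769442 8 := by
  decide +kernel

theorem ok14a_10 : Ok (![-33, -25, -21, -19, -17, -13, -1, 1, 13, 17, 19, 21, 25, 33] : Fin 14 → ℤ)
    8 3784026261406776 5292224217905624 10 := by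
  decide +kernel

theorem ok14a_14 : Ok (![-33, -25, -21, -19, -17, -13, -1, 1, 13, 17, 19, 21, 25, 33] : Fin 14 → ℤ)
    8 1 2644270274497474 14 := by
  decide +kernel

theorem chk14b : Chk (![-41, -37, -33, -29, -21, -17, -10, 10, 17, 21, 29, 33, 37, 41] : Fin 14 → ℤ)
    (![-23, -15, -11, 11, 15, 23] : Fin 6 → ℤ) 1531882984439808000 := by
  decide +kernel

theorem ok14b_2 : Ok (![-41, -37, -33, -29, -21, -17, -10, 10, 17, 21, 29, 33, 37, 41] : Fin 14 → ℤ)
    8 24810088906768299750 26861574744883008899 2 := by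
  decide +kernel

theorem ok14b_6 : Ok (![-41, -37, -33, -29, -21, -17, -10, 10, 17, 21, 29, 33, 37, 41] : Fin 14 → ℤ)
    8 2010989587956784344 16540059271178866499 6 := by
  decide +kernel

theorem chk14c : Chk (![-72, -62, -52, -42, -32, -22, -2, 2, 22, 32, 42, 52, 62, 72] : Fin 14 → ℤ)
    (![-38, -18, -8, 8, 18, 38] : Fin 6 → ℤ) 2101291882905600000000 := by
  decide +kernel

theorem ok14c_12 : Ok (![-72, -62, -52, -42, -32, -22, -2, 2, 22, 32, 42, 52, 62, 72] : Fin 14 → ℤ)
    8 253718198984250000000 1486412387631896484374 12 := by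
  decide +kernel

theorem deg14 (m : ℕ) (hm : 2 ≤ m) (r₁ r₂ : ℕ) (h : r₁ + 2 * r₂ = 14) :
    Large 14 r₁ r₂ (excess 14 r₁) m := by
  have h2 : r₂ ≤ 7 := by omega
  interval_cases r₂
  · obtain rfl : r₁ = 14 := by omega
    exact of_ok chk14a ok14a_14 0 _ m (by norm_num) (by decide) hm
  · obtain rfl : r₁ = 12 := by omega
    exact of_ok chk14c ok14c_12 1 _ m (by norm_num) (by decide) hm
  · obtain rfl : r₁ = 10 := by omega
    exact of_ok chk14a ok14a_10 2 _ m (by norm_num) (by decide) hm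
  · obtain rfl : r₁ = 8 := by omega
    exact of_ok chk14a ok14a_8 3 _ m (by norm_num) (by decide) hm
  · obtain rfl : r₁ = 6 := by omega
    exact of_ok chk14b ok14b_6 4 _ m (by norm_num) (by decide) hm
  · obtain rfl : r₁ = 4 := by omega
    exact of_ok chk14a ok14a_4 5 _ m (by norm_num) (by decide) hm
  · obtain rfl : r₁ = 2 := by omega
    exact of_ok chk14b ok14b_2 6 _ m (by norm_num) (by decide) hm
  · obtain rfl : r₁ = 0 := by omega
    exact of_ok chk14a ok14a_0 7 _ m (by norm_num) (by decide) hm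

theorem chk15a : Chk (![-42, -34, -26, -24, -18, -10, -2, 5, 8, 20, 22, 28, 30, 36, 52] : Fin 15 → ℤ)
    (![0, 2, 10, 18, 26] : Fin 5 → ℤ) 8877958205276160000 := by
  decide +kernel

theorem ok15a_1 : Ok (![-42, -34, -26, -24, -18, -10, -2, 5, 8, 20, 22, 28, 30, 36, 52] : Fin 15 → ℤ)
    8 376724319851945499033600 753448639703890998067201 1 := by
  decide +kernel

theorem ok15a_3 : Ok (![-42, -34, -26, -24, -18, -10, -2, 5, 8, 20, 22, 28, 30, 36, 52] : Fin 15 → ℤ)
    8 1379417550824406555000 180354810380369264639999 3 := by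
  decide +kernel

theorem ok15a_5 : Ok (![-42, -34, -26, -24, -18, -10, -2, 5, 8, 20, 22, 28, 30, 36, 52] : Fin 15 → ℤ)
    8 56800595175835793525 783309081650135039999 5 := by
  decide +kernel

theorem ok15a_7 : Ok (![-42, -34, -26, -24, -18, -10, -2, 5, 8, 20, 22, 28, 30, 36, 52] : Fin 15 → ℤ)
    16 31045174034287108008 35490251504061924569 7 := by
  decide +kernel

theorem ok15a_9 : Ok (![-42, -34, -26, -24, -18, -10, -2, 5, 8, 20, 22, 28, 30, 36, 52] : Fin 15 → ℤ)
    8 5344106375573539590 23320764205558627499 9 := by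
  decide +kernel

theorem ok15a_11 : Ok (![-42, -34, -26, -24, -18, -10, -2, 5, 8, 20, 22, 28, 30, 36, 52] : Fin 15 → ℤ)
    8 3015020220310953050 3822923922200364937 11 := by
  decide +kernel

theorem ok15a_13 : Ok (![-42, -34, -26, -24, -18, -10, -2, 5, 8, 20, 22, 28, 30, 36, 52] : Fin 15 → ℤ)
    8 1693326481232372315 2136174055078280061 13 := by
  decide +kernel

theorem ok15a_15 : Ok (![-42, -34, -26, -24, -18, -10, -2, 5, 8, 20, 22, 28, 30, 36, 52] : Fin 15 → ℤ)
    8 1 1241722597897781999 15 := by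
  decide +kernel

theorem deg15 (m : ℕ) (hm : 2 ≤ m) (r₁ r₂ : ℕ) (h : r₁ + 2 * r₂ = 15) :
    Large 15 r₁ r₂ (excess 15 r₁) m := by
  have h2 : r₂ ≤ 7 := by omega
  interval_cases r₂
  · obtain rfl : r₁ = 15 := by omega
    exact of_ok chk15a ok15a_15 0 _ m (by norm_num) (by decide) hm
  · obtain rfl : r₁ = 13 := by omega
    exact of_ok chk15a ok15a_13 1 _ m (by norm_num) (by decide) hm
  · obtain rfl : r₁ = 11 := by omega
    exact of_ok chk15a ok15a_11 2 _ m (by norm_num) (by decide) hm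
  · obtain rfl : r₁ = 9 := by omega
    exact of_ok chk15a ok15a_9 3 _ m (by norm_num) (by decide) hm
  · obtain rfl : r₁ = 7 := by omega
    exact of_ok chk15a ok15a_7 4 _ m (by norm_num) (by decide) hm
  · obtain rfl : r₁ = 5 := by omega
    exact of_ok chk15a ok15a_5 5 _ m (by norm_num) (by decide) hm
  · obtain rfl : r₁ = 3 := by omega
    exact of_ok chk15a ok15a_3 6 _ m (by norm_num) (by decide) hm
  · obtain rfl : r₁ = 1 := by omega
    exact of_ok chk15a ok15a_1 7 _ m (by norm_num) (by decide) hm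

theorem chk16a : Chk (![-62, -56, -44, -32, -26, -24, -6, -5, 5, 6, 24, 26, 32, 44, 56, 62] : Fin 16 → ℤ)
    (![-28, -22, -10, 10, 22, 28] : Fin 6 → ℤ) 25377739138562575564800 := by
  decide +kernel

theorem ok16a_0 : Ok (![-62, -56, -44, -32, -26, -24, -6, -5, 5, 6, 24, 26, 32, 44, 56, 62] : Fin 16 → ℤ)
    8 79649137994586082573098384 159298275989172165146196769 0 := by
  decide +kernel

theorem ok16a_4 : Ok (![-62, -56, -44, -32, -26, -24, -6, -5, 5, 6, 24, 26, 32, 44, 56, 62] : Fin 16 → ℤ)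
    8 2885847507281972987670079 53704214531550308314715651 4 := by
  decide +kernel

theorem ok16a_8 : Ok (![-62, -56, -44, -32, -26, -24, -6, -5, 5, 6, 24, 26, 32, 44, 56, 62] : Fin 16 → ℤ)
    8 4984715916698485611960 1595069597265879468824999 8 := by
  decide +kernel

theorem ok16a_12 : Ok (![-62, -56, -44, -32, -26, -24, -6, -5, 5, 6, 24, 26, 32, 44, 56, 62] : Fin 16 → ℤ)
    8 310651941920484544960 3734015170593796086599 12 := by
  decide +kernel

theorem ok16a_16 : Ok (![-62, -56, -44, -32, -26, -24, -6, -5, 5, 6, 24, 26, 32, 44, 56, 62] : Fin 16 → ℤ)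
    8 1 238642116431435448418 16 := by
  decide +kernel

theorem chk16b : Chk (![-36, -14, -12, -8, -6, -2, 6, 10, 18, 20, 32, 40, 44, 48, 52, 56] : Fin 16 → ℤ)
    (![0, 4, 12, 16] : Fin 4 → ℤ) 98726108983197696000 := by
  decide +kernel

theorem ok16b_2 : Ok (![-36, -14, -12, -8, -6, -2, 6, 10, 18, 20, 32, 40, 44, 48, 52, 56] : Fin 16 → ℤ)
    8 31778199133502350656153 25577149546992433900005120 2 := by
  decide +kernel

theorem ok16b_6 : Ok (![-36, -14, -12, -8, -6, -2, 6, 10, 18, 20, 32, 40, 44, 48, 52, 56] : Fin 16 → ℤ)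
    8 1279098438577141371521 1339854336200540159999 6 := by
  decide +kernel

theorem ok16b_10 : Ok (![-36, -14, -12, -8, -6, -2, 6, 10, 18, 20, 32, 40, 44, 48, 52, 56] : Fin 16 → ℤ)
    8 72297248692543875000 107050272169385717816 10 := by
  decide +kernel

theorem ok16b_14 : Ok (![-36, -14, -12, -8, -6, -2, 6, 10, 18, 20, 32, 40, 44, 48, 52, 56] : Fin 16 → ℤ)
    8 31077402936657974313 40221748104265727999 14 := by
  decide +kernel

theorem deg16 (m : ℕ) (hm : 2 ≤ m) (r₁ r₂ : ℕ) (h : r₁ + 2 * r₂ = 16) :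
    Large 16 r₁ r₂ (excess 16 r₁) m := by
  have h2 : r₂ ≤ 8 := by omega
  interval_cases r₂
  · obtain rfl : r₁ = 16 := by omega
    exact of_ok chk16a ok16a_16 0 _ m (by norm_num) (by decide) hm
  · obtain rfl : r₁ = 14 := by omega
    exact of_ok chk16b ok16b_14 1 _ m (by norm_num) (by decide) hm
  · obtain rfl : r₁ = 12 := by omega
    exact of_ok chk16a ok16a_12 2 _ m (by norm_num) (by decide) hm
  · obtain rfl : r₁ = 10 := by omega
    exact of_ok chk16b ok16b_10 3 _ m (by norm_num) (by decide) hm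
  · obtain rfl : r₁ = 8 := by omega
    exact of_ok chk16a ok16a_8 4 _ m (by norm_num) (by decide) hm
  · obtain rfl : r₁ = 6 := by omega
    exact of_ok chk16b ok16b_6 5 _ m (by norm_num) (by decide) hm
  · obtain rfl : r₁ = 4 := by omega
    exact of_ok chk16a ok16a_4 6 _ m (by norm_num) (by decide) hm
  · obtain rfl : r₁ = 2 := by omega
    exact of_ok chk16b ok16b_2 7 _ m (by norm_num) (by decide) hm
  · obtain rfl : r₁ = 0 := by omega
    exact of_ok chk16a ok16a_0 8 _ m (by norm_num) (by decide) hm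

theorem chk17a : Chk (![-32, -28, -20, -18, -12, -8, -1, 4, 6, 14, 18, 20, 22, 26, 30, 40, 48] : Fin 17 → ℤ)
    (![0, 8, 12, 24] : Fin 4 → ℤ) 123407636228997120000 := by
  decide +kernel

theorem ok17a_1 : Ok (![-32, -28, -20, -18, -12, -8, -1, 4, 6, 14, 18, 20, 22, 26, 30, 40, 48] : Fin 17 → ℤ)
    8 22876876477425253783500000 45753752954850507567000001 1 := by
  decide +kernel

theorem ok17a_3 : Ok (![-32, -28, -20, -18, -12, -8, -1, 4, 6, 14, 18, 20, 22, 26, 30, 40, 48] : Fin 17 → ℤ)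
    8 369651724847290230345000 12945026645542271818137599 3 := by
  decide +kernel

theorem ok17a_5 : Ok (![-32, -28, -20, -18, -12, -8, -1, 4, 6, 14, 18, 20, 22, 26, 30, 40, 48] : Fin 17 → ℤ)
    8 5615148845022858245753 192536480456607006719999 5 := by
  decide +kernel

theorem ok17a_7 : Ok (![-32, -28, -20, -18, -12, -8, -1, 4, 6, 14, 18, 20, 22, 26, 30, 40, 48] : Fin 17 → ℤ)
    8 2198076322011948659532 3224323750852969383303 7 := by
  decide +kernel

theorem ok17a_9 : Ok (![-32, -28, -20, -18, -12, -8, -1, 4, 6, 14, 18, 20, 22, 26, 30, 40, 48] : Fin 17 → ℤ)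
    16 1047903223842107315753 1374153308239823073298 9 := by
  decide +kernel

theorem ok17a_11 : Ok (![-32, -28, -20, -18, -12, -8, -1, 4, 6, 14, 18, 20, 22, 26, 30, 40, 48] : Fin 17 → ℤ)
    8 62831495028766464000 763149482219567515907 11 := by
  decide +kernel

theorem ok17a_13 : Ok (![-32, -28, -20, -18, -12, -8, -1, 4, 6, 14, 18, 20, 22, 26, 30, 40, 48] : Fin 17 → ℤ)
    8 30691573168561186119 38065002041732974954 13 := by
  decide +kernel

theorem ok17a_15 : Ok (![-32, -28, -20, -18, -12, -8, -1, 4, 6, 14, 18, 20, 22, 26, 30, 40, 48] : Fin 17 → ℤ)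
    8 16434526606405836307 21945671710556343749 15 := by
  decide +kernel

theorem ok17a_17 : Ok (![-32, -28, -20, -18, -12, -8, -1, 4, 6, 14, 18, 20, 22, 26, 30, 40, 48] : Fin 17 → ℤ)
    8 1 11130516156863038369 17 := by
  decide +kernel

theorem deg17 (m : ℕ) (hm : 2 ≤ m) (r₁ r₂ : ℕ) (h : r₁ + 2 * r₂ = 17) :
    Large 17 r₁ r₂ (excess 17 r₁) m := by
  have h2 : r₂ ≤ 8 := by omega
  interval_cases r₂
  · obtain rfl : r₁ = 17 := by omega
    exact of_ok chk17a ok17a_17 0 _ m (by norm_num) (by decide) hm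
  · obtain rfl : r₁ = 15 := by omega
    exact of_ok chk17a ok17a_15 1 _ m (by norm_num) (by decide) hm
  · obtain rfl : r₁ = 13 := by omega
    exact of_ok chk17a ok17a_13 2 _ m (by norm_num) (by decide) hm
  · obtain rfl : r₁ = 11 := by omega
    exact of_ok chk17a ok17a_11 3 _ m (by norm_num) (by decide) hm
  · obtain rfl : r₁ = 9 := by omega
    exact of_ok chk17a ok17a_9 4 _ m (by norm_num) (by decide) hm
  · obtain rfl : r₁ = 7 := by omega
    exact of_ok chk17a ok17a_7 5 _ m (by norm_num) (by decide) hm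
  · obtain rfl : r₁ = 5 := by omega
    exact of_ok chk17a ok17a_5 6 _ m (by norm_num) (by decide) hm
  · obtain rfl : r₁ = 3 := by omega
    exact of_ok chk17a ok17a_3 7 _ m (by norm_num) (by decide) hm
  · obtain rfl : r₁ = 1 := by omega
    exact of_ok chk17a ok17a_1 8 _ m (by norm_num) (by decide) hm

theorem chk18a : Chk (![-93, -73, -43, -38, -33, -29, -11, -9, -1, 1, 9, 11, 29, 33, 38, 43, 73, 93] : Fin 18 → ℤ)
    (![-37, -27, -17, 17, 27, 37] : Fin 6 → ℤ) 337394163556898832384000000 := by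
  decide +kernel

theorem ok18a_0 : Ok (![-93, -73, -43, -38, -33, -29, -11, -9, -1, 1, 9, 11, 29, 33, 38, 43, 73, 93] : Fin 18 → ℤ)
    8 3140761785606424154296009480163799 6281523571212848308592018960327599 0 := by
  decide +kernel

theorem ok18a_4 : Ok (![-93, -73, -43, -38, -33, -29, -11, -9, -1, 1, 9, 11, 29, 33, 38, 43, 73, 93] : Fin 18 → ℤ)
    8 3366877037792042717014084078 1686591902743697860301523695062499 4 := by
  decide +kernel

theorem ok18a_8 : Ok (![-93, -73, -43, -38, -33, -29, -11, -9, -1, 1, 9, 11, 29, 33, 38, 43, 73, 93] : Fin 18 → ℤ)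
    8 226253659084820897263134280 2174060296865481555989880260 8 := by
  decide +kernel

theorem ok18a_12 : Ok (![-93, -73, -43, -38, -33, -29, -11, -9, -1, 1, 9, 11, 29, 33, 38, 43, 73, 93] : Fin 18 → ℤ)
    8 4211947910822627229601108 156993079276557010206719999 12 := by
  decide +kernel

theorem ok18a_16 : Ok (![-93, -73, -43, -38, -33, -29, -11, -9, -1, 1, 9, 11, 29, 33, 38, 43, 73, 93] : Fin 18 → ℤ)
    8 1502452678553706426624323 3041904861614838069474623 16 := by
  decide +kernel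

theorem ok18a_18 : Ok (![-93, -73, -43, -38, -33, -29, -11, -9, -1, 1, 9, 11, 29, 33, 38, 43, 73, 93] : Fin 18 → ℤ)
    8 1 1104612583980006217202723 18 := by
  decide +kernel

theorem chk18b : Chk (![-53, -51, -33, -31, -29, -27, -25, -23, -1, 1, 23, 25, 27, 29, 31, 33, 51, 53] : Fin 18 → ℤ)
    (![-37, -11, -9, 9, 11, 37] : Fin 6 → ℤ) 58552252886272620625920000 := by
  decide +kernel

theorem ok18b_6 : Ok (![-53, -51, -33, -31, -29, -27, -25, -23, -1, 1, 23, 25, 27, 29, 31, 33, 51, 53] : Fin 18 → ℤ)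
    8 219666274088513077756193 1549896053114140779650624 6 := by
  decide +kernel

theorem ok18b_10 : Ok (![-53, -51, -33, -31, -29, -27, -25, -23, -1, 1, 23, 25, 27, 29, 31, 33, 51, 53] : Fin 18 → ℤ)
    8 76653811671540699022638 145806411438381132021409 10 := by
  decide +kernel

theorem ok18b_14 : Ok (![-53, -51, -33, -31, -29, -27, -25, -23, -1, 1, 23, 25, 27, 29, 31, 33, 51, 53] : Fin 18 → ℤ)
    8 29576208667826166126568 52359679282027920514266 14 := by
  decide +kernel

theorem chk18c : Chk (![-7, -5, -3, -1, 1, 3, 11, 13, 14, 18, 24, 26, 30, 32, 34, 36, 40, 55] : Fin 18 → ℤ)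
    (![0, 10, 19, 23, 29] : Fin 5 → ℤ) 18310788798382080000 := by
  decide +kernel

theorem ok18c_2 : Ok (![-7, -5, -3, -1, 1, 3, 11, 13, 14, 18, 24, 26, 30, 32, 34, 36, 40, 55] : Fin 18 → ℤ)
    8 1851143256543689447588 200421894531721766213662922 2 := by
  decide +kernel

theorem deg18 (m : ℕ) (hm : 2 ≤ m) (r₁ r₂ : ℕ) (h : r₁ + 2 * r₂ = 18) :
    Large 18 r₁ r₂ (excess 18 r₁) m := by
  have h2 : r₂ ≤ 9 := by omega
  interval_cases r₂
  · obtain rfl : r₁ = 18 := by omega
    exact of_ok chk18a ok18a_18 0 _ m (by norm_num) (by decide) hm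
  · obtain rfl : r₁ = 16 := by omega
    exact of_ok chk18a ok18a_16 1 _ m (by norm_num) (by decide) hm
  · obtain rfl : r₁ = 14 := by omega
    exact of_ok chk18b ok18b_14 2 _ m (by norm_num) (by decide) hm
  · obtain rfl : r₁ = 12 := by omega
    exact of_ok chk18a ok18a_12 3 _ m (by norm_num) (by decide) hm
  · obtain rfl : r₁ = 10 := by omega
    exact of_ok chk18b ok18b_10 4 _ m (by norm_num) (by decide) hm
  · obtain rfl : r₁ = 8 := by omega
    exact of_ok chk18a ok18a_8 5 _ m (by norm_num) (by decide) hm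
  · obtain rfl : r₁ = 6 := by omega
    exact of_ok chk18b ok18b_6 6 _ m (by norm_num) (by decide) hm
  · obtain rfl : r₁ = 4 := by omega
    exact of_ok chk18a ok18a_4 7 _ m (by norm_num) (by decide) hm
  · obtain rfl : r₁ = 2 := by omega
    exact of_ok chk18c ok18c_2 8 _ m (by norm_num) (by decide) hm
  · obtain rfl : r₁ = 0 := by omega
    exact of_ok chk18a ok18a_0 9 _ m (by norm_num) (by decide) hm

theorem chk19a : Chk (![-36, -32, -24, -20, -16, -12, -8, -4, -2, 9, 14, 20, 22, 26, 32, 40, 48, 56, 60] : Fin 19 → ℤ)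
    (![0, 8, 16, 24] : Fin 4 → ℤ) 2021910711975888814080000 := by
  decide +kernel

theorem ok19a_1 : Ok (![-36, -32, -24, -20, -16, -12, -8, -4, -2, 9, 14, 20, 22, 26, 32, 40, 48, 56, 60] : Fin 19 → ℤ)
    8 211456156317011189230412390625 422912312634022378460824781251 1 := by
  decide +kernel

theorem ok19a_3 : Ok (![-36, -32, -24, -20, -16, -12, -8, -4, -2, 9, 14, 20, 22, 26, 32, 40, 48, 56, 60] : Fin 19 → ℤ)
    8 8461081687281512428339200000 142051804192315897315372921911 3 := by
  decide +kernel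

theorem ok19a_5 : Ok (![-36, -32, -24, -20, -16, -12, -8, -4, -2, 9, 14, 20, 22, 26, 32, 40, 48, 56, 60] : Fin 19 → ℤ)
    8 3679480199460928057247052000 4786066408967320161484799999 5 := by
  decide +kernel

theorem ok19a_7 : Ok (![-36, -32, -24, -20, -16, -12, -8, -4, -2, 9, 14, 20, 22, 26, 32, 40, 48, 56, 60] : Fin 19 → ℤ)
    8 46468825225879832684530551 1902352742009627030323199999 7 := by
  decide +kernel

theorem ok19a_9 : Ok (![-36, -32, -24, -20, -16, -12, -8, -4, -2, 9, 14, 20, 22, 26, 32, 40, 48, 56, 60] : Fin 19 → ℤ)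
    8 9117929290390395324067969 26082719066754422474305204 9 := by
  decide +kernel

theorem ok19a_11 : Ok (![-36, -32, -24, -20, -16, -12, -8, -4, -2, 9, 14, 20, 22, 26, 32, 40, 48, 56, 60] : Fin 19 → ℤ)
    8 3700748794060018410182150 5669007271828927858885522 11 := by
  decide +kernel

theorem ok19a_13 : Ok (![-36, -32, -24, -20, -16, -12, -8, -4, -2, 9, 14, 20, 22, 26, 32, 40, 48, 56, 60] : Fin 19 → ℤ)
    8 1350520866100480097504927 2268151120616077936351502 13 := by
  decide +kernel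

theorem ok19a_15 : Ok (![-36, -32, -24, -20, -16, -12, -8, -4, -2, 9, 14, 20, 22, 26, 32, 40, 48, 56, 60] : Fin 19 → ℤ)
    8 517443088733110085480457 818096215982447001599999 15 := by
  decide +kernel

theorem ok19a_17 : Ok (![-36, -32, -24, -20, -16, -12, -8, -4, -2, 9, 14, 20, 22, 26, 32, 40, 48, 56, 60] : Fin 19 → ℤ)
    8 278283673989244861046225 367130608695061673962499 17 := by
  decide +kernel

theorem ok19a_19 : Ok (![-36, -32, -24, -20, -16, -12, -8, -4, -2, 9, 14, 20, 22, 26, 32, 40, 48, 56, 60] : Fin 19 → ℤ)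
    8 1 193968526704886150717499 19 := by
  decide +kernel

theorem deg19 (m : ℕ) (hm : 2 ≤ m) (r₁ r₂ : ℕ) (h : r₁ + 2 * r₂ = 19) :
    Large 19 r₁ r₂ (excess 19 r₁) m := by
  have h2 : r₂ ≤ 9 := by omega
  interval_cases r₂
  · obtain rfl : r₁ = 19 := by omega
    exact of_ok chk19a ok19a_19 0 _ m (by norm_num) (by decide) hm
  · obtain rfl : r₁ = 17 := by omega
    exact of_ok chk19a ok19a_17 1 _ m (by norm_num) (by decide) hm
  · obtain rfl : r₁ = 15 := by omega
    exact of_ok chk19a ok19a_15 2 _ m (by norm_num) (by decide) hm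
  · obtain rfl : r₁ = 13 := by omega
    exact of_ok chk19a ok19a_13 3 _ m (by norm_num) (by decide) hm
  · obtain rfl : r₁ = 11 := by omega
    exact of_ok chk19a ok19a_11 4 _ m (by norm_num) (by decide) hm
  · obtain rfl : r₁ = 9 := by omega
    exact of_ok chk19a ok19a_9 5 _ m (by norm_num) (by decide) hm
  · obtain rfl : r₁ = 7 := by omega
    exact of_ok chk19a ok19a_7 6 _ m (by norm_num) (by decide) hm
  · obtain rfl : r₁ = 5 := by omega
    exact of_ok chk19a ok19a_5 7 _ m (by norm_num) (by decide) hm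
  · obtain rfl : r₁ = 3 := by omega
    exact of_ok chk19a ok19a_3 8 _ m (by norm_num) (by decide) hm
  · obtain rfl : r₁ = 1 := by omega
    exact of_ok chk19a ok19a_1 9 _ m (by norm_num) (by decide) hm

end Pool.Agent.N855.SG
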