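import Pool.Agent.N855.SG.Exc

/-!
# Data and certificates for the degrees from 20 to 23
-/

set_option autoImplicit false
set_option maxRecDepth 100000

namespace Pool.Agent.N855.SG

theorem chk20a : Chk (![-67, -61, -55, -49, -43, -37, -27, -25, -9, -4, 4, 9, 25, 27, 37, 43, 49, 55, 61, 67] : Fin 20 → ℤ)
    (![-29, -23, -11, 11, 23, 29] : Fin 6 → ℤ) 288973700293046151256473600000 := by
  decide +kernel

theorem ok20a_0 : Ok (![-67, -61, -55, -49, -43, -37, -27, -25, -9, -4, 4, 9, 25, 27, 37, 43, 49, 55, 61, 67] : Fin 20 → ℤ)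
    8 720963395074164107097812817386735 1441926790148328214195625634773471 0 := by
  decide +kernel

theorem ok20a_4 : Ok (![-67, -61, -55, -49, -43, -37, -27, -25, -9, -4, 4, 9, 25, 27, 37, 43, 49, 55, 61, 67] : Fin 20 → ℤ)
    8 10440672202657535930905769003419 452926405603030524402966012522796 4 := by
  decide +kernel

theorem ok20a_8 : Ok (![-67, -61, -55, -49, -43, -37, -27, -25, -9, -4, 4, 9, 25, 27, 37, 43, 49, 55, 61, 67] : Fin 20 → ℤ)
    8 1323899477137593590882227267691 6473608808827652639479908883735 8 := by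
  decide +kernel

theorem ok20a_12 : Ok (![-67, -61, -55, -49, -43, -37, -27, -25, -9, -4, 4, 9, 25, 27, 37, 43, 49, 55, 61, 67] : Fin 20 → ℤ)
    8 171687821484011722653270386615 822020483437796475300498029999 12 := by
  decide +kernel

theorem ok20a_16 : Ok (![-67, -61, -55, -49, -43, -37, -27, -25, -9, -4, 4, 9, 25, 27, 37, 43, 49, 55, 61, 67] : Fin 20 → ℤ)
    8 54446618085564192695389676392 112308048521437403311142922200 16 := by
  decide +kernel

theorem ok20a_20 : Ok (![-67, -61, -55, -49, -43, -37, -27, -25, -9, -4, 4, 9, 25, 27, 37, 43, 49, 55, 61, 67] : Fin 20 → ℤ)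
    8 1 40594239730084683542138662499 20 := by
  decide +kernel

theorem chk20b : Chk (![-32, -24, -20, -16, -8, -6, 2, 3, 11, 14, 28, 30, 32, 36, 40, 44, 48, 52, 56, 60] : Fin 20 → ℤ)
    (![0, 8, 16, 24] : Fin 4 → ℤ) 155687124822143438684160000 := by
  decide +kernel

theorem ok20b_2 : Ok (![-32, -24, -20, -16, -8, -6, 2, 3, 11, 14, 28, 30, 32, 36, 40, 44, 48, 52, 56, 60] : Fin 20 → ℤ)
    8 79645773416055702019622708973 6170746423165654959831121919999 2 := by
  decide +kernel

theorem ok20b_6 : Ok (![-32, -24, -20, -16, -8, -6, 2, 3, 11, 14, 28, 30, 32, 36, 40, 44, 48, 52, 56, 60] : Fin 20 → ℤ)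
    8 863932738505017706764470000 9609037379882925351315999700 6 := by
  decide +kernel

theorem ok20b_10 : Ok (![-32, -24, -20, -16, -8, -6, 2, 3, 11, 14, 28, 30, 32, 36, 40, 44, 48, 52, 56, 60] : Fin 20 → ℤ)
    8 59587740433511500640026932 120617415756729238234387499 10 := by
  decide +kernel

theorem ok20b_14 : Ok (![-32, -24, -20, -16, -8, -6, 2, 3, 11, 14, 28, 30, 32, 36, 40, 44, 48, 52, 56, 60] : Fin 20 → ℤ)
    8 11496580320612595705479405 36485852784972373927047740 14 := by
  decide +kernel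

theorem ok20b_18 : Ok (![-32, -24, -20, -16, -8, -6, 2, 3, 11, 14, 28, 30, 32, 36, 40, 44, 48, 52, 56, 60] : Fin 20 → ℤ)
    8 3369837114406767603114743 6202139054477630746950987 18 := by
  decide +kernel

theorem deg20 (m : ℕ) (hm : 2 ≤ m) (r₁ r₂ : ℕ) (h : r₁ + 2 * r₂ = 20) :
    Large 20 r₁ r₂ (excess 20 r₁) m := by
  have h2 : r₂ ≤ 10 := by omega
  interval_cases r₂
  · obtain rfl : r₁ = 20 := by omega
    exact of_ok chk20a ok20a_20 0 _ m (by norm_num) (by decide) hm
  · obtain rfl : r₁ = 18 := by omega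
    exact of_ok chk20b ok20b_18 1 _ m (by norm_num) (by decide) hm
  · obtain rfl : r₁ = 16 := by omega
    exact of_ok chk20a ok20a_16 2 _ m (by norm_num) (by decide) hm
  · obtain rfl : r₁ = 14 := by omega
    exact of_ok chk20b ok20b_14 3 _ m (by norm_num) (by decide) hm
  · obtain rfl : r₁ = 12 := by omega
    exact of_ok chk20a ok20a_12 4 _ m (by norm_num) (by decide) hm
  · obtain rfl : r₁ = 10 := by omega
    exact of_ok chk20b ok20b_10 5 _ m (by norm_num) (by decide) hm
  · obtain rfl : r₁ = 8 := by omega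
    exact of_ok chk20a ok20a_8 6 _ m (by norm_num) (by decide) hm
  · obtain rfl : r₁ = 6 := by omega
    exact of_ok chk20b ok20b_6 7 _ m (by norm_num) (by decide) hm
  · obtain rfl : r₁ = 4 := by omega
    exact of_ok chk20a ok20a_4 8 _ m (by norm_num) (by decide) hm
  · obtain rfl : r₁ = 2 := by omega
    exact of_ok chk20b ok20b_2 9 _ m (by norm_num) (by decide) hm
  · obtain rfl : r₁ = 0 := by omega
    exact of_ok chk20a ok20a_0 10 _ m (by norm_num) (by decide) hm

theorem chk21a : Chk (![-44, -32, -30, -18, -14, -10, -8, -6, -2, 4, 8, 15, 16, 20, 21, 28, 36, 42, 52, 54, 66] : Fin 21 → ℤ)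
    (![0, 10, 12, 22] : Fin 4 → ℤ) 258616991525845692579840000 := by
  decide +kernel

theorem ok21a_1 : Ok (![-44, -32, -30, -18, -14, -10, -8, -6, -2, 4, 8, 15, 16, 20, 21, 28, 36, 42, 52, 54, 66] : Fin 21 → ℤ)
    8 25060678837244806080755662848000000 50121357674489612161511325696000001 1 := by
  decide +kernel

theorem ok21a_3 : Ok (![-44, -32, -30, -18, -14, -10, -8, -6, -2, 4, 8, 15, 16, 20, 21, 28, 36, 42, 52, 54, 66] : Fin 21 → ℤ)
    8 38816833259919509830146870758685 11877590511946438550985210127060155 3 := by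
  decide +kernel

theorem ok21a_5 : Ok (![-44, -32, -30, -18, -14, -10, -8, -6, -2, 4, 8, 15, 16, 20, 21, 28, 36, 42, 52, 54, 66] : Fin 21 → ℤ)
    8 2216189384048241391875344023050 18826045279765004155221262486759 5 := by
  decide +kernel

theorem ok21a_7 : Ok (![-44, -32, -30, -18, -14, -10, -8, -6, -2, 4, 8, 15, 16, 20, 21, 28, 36, 42, 52, 54, 66] : Fin 21 → ℤ)
    8 226632139668888522969002803200 1625940288519434753608210265026 7 := by
  decide +kernel

theorem ok21a_9 : Ok (![-44, -32, -30, -18, -14, -10, -8, -6, -2, 4, 8, 15, 16, 20, 21, 28, 36, 42, 52, 54, 66] : Fin 21 → ℤ)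
    8 12121018077900535021418437297 117501486555247638044737535999 9 := by
  decide +kernel

theorem ok21a_11 : Ok (![-44, -32, -30, -18, -14, -10, -8, -6, -2, 4, 8, 15, 16, 20, 21, 28, 36, 42, 52, 54, 66] : Fin 21 → ℤ)
    8 270473354691042308097600000 7322823946225773142957799999 11 := by
  decide +kernel

theorem ok21a_13 : Ok (![-44, -32, -30, -18, -14, -10, -8, -6, -2, 4, 8, 15, 16, 20, 21, 28, 36, 42, 52, 54, 66] : Fin 21 → ℤ)
    16 153167554314566663426909533 168010003830685040639999999 13 := by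
  decide +kernel

theorem ok21a_15 : Ok (![-44, -32, -30, -18, -14, -10, -8, -6, -2, 4, 8, 15, 16, 20, 21, 28, 36, 42, 52, 54, 66] : Fin 21 → ℤ)
    8 69871534210701225062345482 114901120855646262996729096 15 := by
  decide +kernel

theorem ok21a_17 : Ok (![-44, -32, -30, -18, -14, -10, -8, -6, -2, 4, 8, 15, 16, 20, 21, 28, 36, 42, 52, 54, 66] : Fin 21 → ℤ)
    8 24899537366866931655136778 46966676308841058151569367 17 := by
  decide +kernel

theorem ok21a_19 : Ok (![-44, -32, -30, -18, -14, -10, -8, -6, -2, 4, 8, 15, 16, 20, 21, 28, 36, 42, 52, 54, 66] : Fin 21 → ℤ)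
    8 9975688009697446861369656 18028959380983311734081905 19 := by
  decide +kernel

theorem ok21a_21 : Ok (![-44, -32, -30, -18, -14, -10, -8, -6, -2, 4, 8, 15, 16, 20, 21, 28, 36, 42, 52, 54, 66] : Fin 21 → ℤ)
    8 1 7368895234758495999118061 21 := by
  decide +kernel

theorem deg21 (m : ℕ) (hm : 2 ≤ m) (r₁ r₂ : ℕ) (h : r₁ + 2 * r₂ = 21) :
    Large 21 r₁ r₂ (excess 21 r₁) m := by
  have h2 : r₂ ≤ 10 := by omega
  interval_cases r₂
  · obtain rfl : r₁ = 21 := by omega
    exact of_ok chk21a ok21a_21 0 _ m (by norm_num) (by decide) hm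
  · obtain rfl : r₁ = 19 := by omega
    exact of_ok chk21a ok21a_19 1 _ m (by norm_num) (by decide) hm
  · obtain rfl : r₁ = 17 := by omega
    exact of_ok chk21a ok21a_17 2 _ m (by norm_num) (by decide) hm
  · obtain rfl : r₁ = 15 := by omega
    exact of_ok chk21a ok21a_15 3 _ m (by norm_num) (by decide) hm
  · obtain rfl : r₁ = 13 := by omega
    exact of_ok chk21a ok21a_13 4 _ m (by norm_num) (by decide) hm
  · obtain rfl : r₁ = 11 := by omega
    exact of_ok chk21a ok21a_11 5 _ m (by norm_num) (by decide) hm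
  · obtain rfl : r₁ = 9 := by omega
    exact of_ok chk21a ok21a_9 6 _ m (by norm_num) (by decide) hm
  · obtain rfl : r₁ = 7 := by omega
    exact of_ok chk21a ok21a_7 7 _ m (by norm_num) (by decide) hm
  · obtain rfl : r₁ = 5 := by omega
    exact of_ok chk21a ok21a_5 8 _ m (by norm_num) (by decide) hm
  · obtain rfl : r₁ = 3 := by omega
    exact of_ok chk21a ok21a_3 9 _ m (by norm_num) (by decide) hm
  · obtain rfl : r₁ = 1 := by omega
    exact of_ok chk21a ok21a_1 10 _ m (by norm_num) (by decide) hm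

theorem chk22a : Chk (![-80, -75, -44, -39, -34, -32, -29, -27, -15, -14, -2, 2, 14, 15, 27, 29, 32, 34, 39, 44, 75, 80] : Fin 22 → ℤ)
    (![-36, -10, -5, 5, 10, 36] : Fin 6 → ℤ) 47576973127545608393687040000000 := by
  decide +kernel

theorem ok22a_0 : Ok (![-80, -75, -44, -39, -34, -32, -29, -27, -15, -14, -2, 2, 14, 15, 27, 29, 32, 34, 39, 44, 75, 80] : Fin 22 → ℤ)
    8 584114332625824570208093667485000059241 1168228665251649140416187334970000118483 0 := by
  decide +kernel

theorem ok22a_4 : Ok (![-80, -75, -44, -39, -34, -32, -29, -27, -15, -14, -2, 2, 14, 15, 27, 29, 32, 34, 39, 44, 75, 80] : Fin 22 → ℤ)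
    8 2698849322300664419081586886519806 407933369277154379413830611378455577281 4 := by
  decide +kernel

theorem ok22a_8 : Ok (![-80, -75, -44, -39, -34, -32, -29, -27, -15, -14, -2, 2, 14, 15, 27, 29, 32, 34, 39, 44, 75, 80] : Fin 22 → ℤ)
    8 20114317229939743746509949375000 1609651111770234786273566980220974 8 := by
  decide +kernel

theorem ok22a_10 : Ok (![-80, -75, -44, -39, -34, -32, -29, -27, -15, -14, -2, 2, 14, 15, 27, 29, 32, 34, 39, 44, 75, 80] : Fin 22 → ℤ)
    8 4297774130223751296115650490456 13571159771832292107878399999999 10 := by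
  decide +kernel

theorem ok22a_14 : Ok (![-80, -75, -44, -39, -34, -32, -29, -27, -15, -14, -2, 2, 14, 15, 27, 29, 32, 34, 39, 44, 75, 80] : Fin 22 → ℤ)
    8 2404393010510501052743775292969 2984888899292480073090294950874 14 := by
  decide +kernel

theorem ok22a_18 : Ok (![-80, -75, -44, -39, -34, -32, -29, -27, -15, -14, -2, 2, 14, 15, 27, 29, 32, 34, 39, 44, 75, 80] : Fin 22 → ℤ)
    8 1082503005490685182321032432052 1656370976812464697443090431999 18 := by
  decide +kernel

theorem ok22a_22 : Ok (![-80, -75, -44, -39, -34, -32, -29, -27, -15, -14, -2, 2, 14, 15, 27, 29, 32, 34, 39, 44, 75, 80] : Fin 22 → ℤ)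
    8 1 827623529500184381754266377960 22 := by
  decide +kernel

theorem chk22b : Chk (![-83, -59, -55, -49, -47, -43, -35, -33, -26, -9, -1, 1, 9, 26, 33, 35, 43, 47, 49, 55, 59, 83] : Fin 22 → ℤ)
    (![-29, -7, -5, 5, 7, 29] : Fin 6 → ℤ) 752487515563092177871857254400000 := by
  decide +kernel

theorem ok22b_12 : Ok (![-83, -59, -55, -49, -47, -43, -35, -33, -26, -9, -1, 1, 9, 26, 33, 35, 43, 47, 49, 55, 59, 83] : Fin 22 → ℤ)
    8 531039425377025442130270617600000 6253222914119248880902325395860507 12 := by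
  decide +kernel

theorem ok22b_16 : Ok (![-83, -59, -55, -49, -47, -43, -35, -33, -26, -9, -1, 1, 9, 26, 33, 35, 43, 47, 49, 55, 59, 83] : Fin 22 → ℤ)
    8 85277066436270107336913768853364 342734506315549816791446323199999 16 := by
  decide +kernel

theorem ok22b_20 : Ok (![-83, -59, -55, -49, -47, -43, -35, -33, -26, -9, -1, 1, 9, 26, 33, 35, 43, 47, 49, 55, 59, 83] : Fin 22 → ℤ)
    16 60841707302931624786251477078328 62359228986035835674913592499999 20 := by
  decide +kernel

theorem chk22c : Chk (![-67, -59, -57, -55, -51, -47, -39, -37, -31, -27, -19, 19, 27, 31, 37, 39, 47, 51, 55, 57, 59, 67] : Fin 22 → ℤ)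
    (![-53, -41, -33, 33, 41, 53] : Fin 6 → ℤ) 233697807631266427623702528000000 := by
  decide +kernel

theorem ok22c_2 : Ok (![-67, -59, -57, -55, -51, -47, -39, -37, -31, -27, -19, 19, 27, 31, 37, 39, 47, 51, 55, 57, 59, 67] : Fin 22 → ℤ)
    16 403718079205698205658414409822304688 464681697482380926803317586223210224 2 := by
  decide +kernel

theorem ok22c_6 : Ok (![-67, -59, -57, -55, -51, -47, -39, -37, -31, -27, -19, 19, 27, 31, 37, 39, 47, 51, 55, 57, 59, 67] : Fin 22 → ℤ)
    8 442437941672925318340293427200000 269145386137132137105609606548203124 6 := by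
  decide +kernel

theorem deg22 (m : ℕ) (hm : 2 ≤ m) (r₁ r₂ : ℕ) (h : r₁ + 2 * r₂ = 22) :
    Large 22 r₁ r₂ (excess 22 r₁) m := by
  have h2 : r₂ ≤ 11 := by omega
  interval_cases r₂
  · obtain rfl : r₁ = 22 := by omega
    exact of_ok chk22a ok22a_22 0 _ m (by norm_num) (by decide) hm
  · obtain rfl : r₁ = 20 := by omega
    exact of_ok chk22b ok22b_20 1 _ m (by norm_num) (by decide) hm
  · obtain rfl : r₁ = 18 := by omega
    exact of_ok chk22a ok22a_18 2 _ m (by norm_num) (by decide) hm
  · obtain rfl : r₁ = 16 := by omega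
    exact of_ok chk22b ok22b_16 3 _ m (by norm_num) (by decide) hm
  · obtain rfl : r₁ = 14 := by omega
    exact of_ok chk22a ok22a_14 4 _ m (by norm_num) (by decide) hm
  · obtain rfl : r₁ = 12 := by omega
    exact of_ok chk22b ok22b_12 5 _ m (by norm_num) (by decide) hm
  · obtain rfl : r₁ = 10 := by omega
    exact of_ok chk22a ok22a_10 6 _ m (by norm_num) (by decide) hm
  · obtain rfl : r₁ = 8 := by omega
    exact of_ok chk22a ok22a_8 7 _ m (by norm_num) (by decide) hm
  · obtain rfl : r₁ = 6 := by omega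
    exact of_ok chk22c ok22c_6 8 _ m (by norm_num) (by decide) hm
  · obtain rfl : r₁ = 4 := by omega
    exact of_ok chk22a ok22a_4 9 _ m (by norm_num) (by decide) hm
  · obtain rfl : r₁ = 2 := by omega
    exact of_ok chk22c ok22c_2 10 _ m (by norm_num) (by decide) hm
  · obtain rfl : r₁ = 0 := by omega
    exact of_ok chk22a ok22a_0 11 _ m (by norm_num) (by decide) hm

theorem chk23a : Chk (![-64, -56, -52, -48, -36, -28, -25, -24, -22, -12, -11, -10, -8, 4, 5, 6, 8, 12, 16, 24, 28, 36, 40] : Fin 23 → ℤ)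
    (![-20, -16, -4, 0] : Fin 4 → ℤ) 224189459743886551705190400000 := by
  decide +kernel

theorem ok23a_1 : Ok (![-64, -56, -52, -48, -36, -28, -25, -24, -22, -12, -11, -10, -8, 4, 5, 6, 8, 12, 16, 24, 28, 36, 40] : Fin 23 → ℤ)
    8 323690916492914526715564983639683804 647381832985829053431129967279367609 1 := by
  decide +kernel

theorem ok23a_3 : Ok (![-64, -56, -52, -48, -36, -28, -25, -24, -22, -12, -11, -10, -8, 4, 5, 6, 8, 12, 16, 24, 28, 36, 40] : Fin 23 → ℤ)
    8 69160304318653294120765688001705000 210407594886724234347389501459999999 3 := by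
  decide +kernel

theorem ok23a_5 : Ok (![-64, -56, -52, -48, -36, -28, -25, -24, -22, -12, -11, -10, -8, 4, 5, 6, 8, 12, 16, 24, 28, 36, 40] : Fin 23 → ℤ)
    8 17734561505463722246476017966836572 43680192201254712076273066106339999 5 := by
  decide +kernel

theorem ok23a_7 : Ok (![-64, -56, -52, -48, -36, -28, -25, -24, -22, -12, -11, -10, -8, 4, 5, 6, 8, 12, 16, 24, 28, 36, 40] : Fin 23 → ℤ)
    8 743491305956121724209308869518750 7526437847270655429986365522949999 7 := by
  decide +kernel

theorem ok23a_9 : Ok (![-64, -56, -52, -48, -36, -28, -25, -24, -22, -12, -11, -10, -8, 4, 5, 6, 8, 12, 16, 24, 28, 36, 40] : Fin 23 → ℤ)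
    8 2652482123275008666528698686875 458185973236073402082715062784651 9 := by
  decide +kernel

theorem ok23a_11 : Ok (![-64, -56, -52, -48, -36, -28, -25, -24, -22, -12, -11, -10, -8, 4, 5, 6, 8, 12, 16, 24, 28, 36, 40] : Fin 23 → ℤ)
    8 452070562046400723146225148267 1544793230249523051201904499999 11 := by
  decide +kernel

theorem ok23a_13 : Ok (![-64, -56, -52, -48, -36, -28, -25, -24, -22, -12, -11, -10, -8, 4, 5, 6, 8, 12, 16, 24, 28, 36, 40] : Fin 23 → ℤ)
    8 42165168918987689535451346111 271682267354993272898150229961 13 := by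
  decide +kernel

theorem ok23a_15 : Ok (![-64, -56, -52, -48, -36, -28, -25, -24, -22, -12, -11, -10, -8, 4, 5, 6, 8, 12, 16, 24, 28, 36, 40] : Fin 23 → ℤ)
    8 9161016117349626812906533360 27290776273021571003602326154 15 := by
  decide +kernel

theorem ok23a_17 : Ok (![-64, -56, -52, -48, -36, -28, -25, -24, -22, -12, -11, -10, -8, 4, 5, 6, 8, 12, 16, 24, 28, 36, 40] : Fin 23 → ℤ)
    8 4821693090002221136862422409 5713343154384210432241247059 17 := by
  decide +kernel

theorem ok23a_19 : Ok (![-64, -56, -52, -48, -36, -28, -25, -24, -22, -12, -11, -10, -8, 4, 5, 6, 8, 12, 16, 24, 28, 36, 40] : Fin 23 → ℤ)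
    8 1424326604490233609000999226 3056206377717419146233197627 19 := by
  decide +kernel

theorem ok23a_21 : Ok (![-64, -56, -52, -48, -36, -28, -25, -24, -22, -12, -11, -10, -8, 4, 5, 6, 8, 12, 16, 24, 28, 36, 40] : Fin 23 → ℤ)
    8 926777508666986694719972101 1002802608384516415356302932 21 := by
  decide +kernel

theorem ok23a_23 : Ok (![-64, -56, -52, -48, -36, -28, -25, -24, -22, -12, -11, -10, -8, 4, 5, 6, 8, 12, 16, 24, 28, 36, 40] : Fin 23 → ℤ)
    8 1 657381402967992568290780601 23 := by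
  decide +kernel

theorem deg23 (m : ℕ) (hm : 2 ≤ m) (r₁ r₂ : ℕ) (h : r₁ + 2 * r₂ = 23) :
    Large 23 r₁ r₂ (excess 23 r₁) m := by
  have h2 : r₂ ≤ 11 := by omega
  interval_cases r₂
  · obtain rfl : r₁ = 23 := by omega
    exact of_ok chk23a ok23a_23 0 _ m (by norm_num) (by decide) hm
  · obtain rfl : r₁ = 21 := by omega
    exact of_ok chk23a ok23a_21 1 _ m (by norm_num) (by decide) hm
  · obtain rfl : r₁ = 19 := by omega
    exact of_ok chk23a ok23a_19 2 _ m (by norm_num) (by decide) hm
  · obtain rfl : r₁ = 17 := by omega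
    exact of_ok chk23a ok23a_17 3 _ m (by norm_num) (by decide) hm
  · obtain rfl : r₁ = 15 := by omega
    exact of_ok chk23a ok23a_15 4 _ m (by norm_num) (by decide) hm
  · obtain rfl : r₁ = 13 := by omega
    exact of_ok chk23a ok23a_13 5 _ m (by norm_num) (by decide) hm
  · obtain rfl : r₁ = 11 := by omega
    exact of_ok chk23a ok23a_11 6 _ m (by norm_num) (by decide) hm
  · obtain rfl : r₁ = 9 := by omega
    exact of_ok chk23a ok23a_9 7 _ m (by norm_num) (by decide) hm
  · obtain rfl : r₁ = 7 := by omega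
    exact of_ok chk23a ok23a_7 8 _ m (by norm_num) (by decide) hm
  · obtain rfl : r₁ = 5 := by omega
    exact of_ok chk23a ok23a_5 9 _ m (by norm_num) (by decide) hm
  · obtain rfl : r₁ = 3 := by omega
    exact of_ok chk23a ok23a_3 10 _ m (by norm_num) (by decide) hm
  · obtain rfl : r₁ = 1 := by omega
    exact of_ok chk23a ok23a_1 11 _ m (by norm_num) (by decide) hm

end Pool.Agent.N855.SG
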