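import Pool.Agent.N855.SG.Exc

/-!
# Data and certificates for the degrees from 24 to 27
-/

set_option autoImplicit false
set_option maxRecDepth 100000

namespace Pool.Agent.N855.SG

theorem chk24a : Chk (![-89, -79, -77, -69, -59, -57, -47, -37, -27, -25, -3, -1, 1, 3, 25, 27, 37, 47, 57, 59, 69, 77, 79, 89] : Fin 24 → ℤ)
    (![-31, -21, -11, 11, 21, 31] : Fin 6 → ℤ) 145102568133440242740538116145152000000 := by
  decide +kernel

theorem ok24a_0 : Ok (![-89, -79, -77, -69, -59, -57, -47, -37, -27, -25, -3, -1, 1, 3, 25, 27, 37, 47, 57, 59, 69, 77, 79, 89] : Fin 24 → ℤ)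
    8 6398558104319967213525465776421364451924665 12797116208639934427050931552842728903849331 0 := by
  decide +kernel

theorem ok24a_4 : Ok (![-89, -79, -77, -69, -59, -57, -47, -37, -27, -25, -3, -1, 1, 3, 25, 27, 37, 47, 57, 59, 69, 77, 79, 89] : Fin 24 → ℤ)
    8 42734530862639640721784865873199104000000 3254264183246185205314725145982829996596114 4 := by
  decide +kernel

theorem ok24a_8 : Ok (![-89, -79, -77, -69, -59, -57, -47, -37, -27, -25, -3, -1, 1, 3, 25, 27, 37, 47, 57, 59, 69, 77, 79, 89] : Fin 24 → ℤ)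
    8 1049930021353755080345630465314746631765 24892309980835971173831024029771919859374 8 := by
  decide +kernel

theorem ok24a_12 : Ok (![-89, -79, -77, -69, -59, -57, -47, -37, -27, -25, -3, -1, 1, 3, 25, 27, 37, 47, 57, 59, 69, 77, 79, 89] : Fin 24 → ℤ)
    8 162171622749779902927519282835803940422 578430863652888780474073936254942896244 12 := by
  decide +kernel

theorem ok24a_16 : Ok (![-89, -79, -77, -69, -59, -57, -47, -37, -27, -25, -3, -1, 1, 3, 25, 27, 37, 47, 57, 59, 69, 77, 79, 89] : Fin 24 → ℤ)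
    8 10834471907832839163940820619302011639 118605081425452965046349271633491859374 16 := by
  decide +kernel

theorem ok24a_20 : Ok (![-89, -79, -77, -69, -59, -57, -47, -37, -27, -25, -3, -1, 1, 3, 25, 27, 37, 47, 57, 59, 69, 77, 79, 89] : Fin 24 → ℤ)
    8 481558432678530700958638214045322065 8072846855664374813655815865467859374 20 := by
  decide +kernel

theorem ok24a_24 : Ok (![-89, -79, -77, -69, -59, -57, -47, -37, -27, -25, -3, -1, 1, 3, 25, 27, 37, 47, 57, 59, 69, 77, 79, 89] : Fin 24 → ℤ)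
    8 1 338416726838843066010697721190287633 24 := by
  decide +kernel

theorem chk24b : Chk (![-44, -32, -30, -18, -14, -8, -6, -2, 1, 4, 6, 8, 14, 15, 20, 21, 24, 28, 36, 40, 42, 52, 54, 66] : Fin 24 → ℤ)
    (![0, 10, 12, 22] : Fin 4 → ℤ) 130342963729026229060239360000 := by
  decide +kernel

theorem ok24b_2 : Ok (![-44, -32, -30, -18, -14, -8, -6, -2, 1, 4, 6, 8, 14, 15, 20, 21, 24, 28, 36, 40, 42, 52, 54, 66] : Fin 24 → ℤ)
    16 951632585101830966161992919397843877588 1136825473565221100529533115957944459331 2 := by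
  decide +kernel

theorem ok24b_6 : Ok (![-44, -32, -30, -18, -14, -8, -6, -2, 1, 4, 6, 8, 14, 15, 20, 21, 24, 28, 36, 40, 42, 52, 54, 66] : Fin 24 → ℤ)
    8 415449230083448255142945332653099349 563514720661709567263678002037199999 6 := by
  decide +kernel

theorem ok24b_10 : Ok (![-44, -32, -30, -18, -14, -8, -6, -2, 1, 4, 6, 8, 14, 15, 20, 21, 24, 28, 36, 40, 42, 52, 54, 66] : Fin 24 → ℤ)
    8 259178066636168072794785642011400 272233418086280722675174784235385 10 := by
  decide +kernel

theorem ok24b_14 : Ok (![-44, -32, -30, -18, -14, -8, -6, -2, 1, 4, 6, 8, 14, 15, 20, 21, 24, 28, 36, 40, 42, 52, 54, 66] : Fin 24 → ℤ)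
    8 2114589320836755037903949023829 3197247765089684847864973649999 14 := by
  decide +kernel

theorem ok24b_18 : Ok (![-44, -32, -30, -18, -14, -8, -6, -2, 1, 4, 6, 8, 14, 15, 20, 21, 24, 28, 36, 40, 42, 52, 54, 66] : Fin 24 → ℤ)
    8 29016896947131129937174482695 66010097554345324050896195605 18 := by
  decide +kernel

theorem ok24b_22 : Ok (![-44, -32, -30, -18, -14, -8, -6, -2, 1, 4, 6, 8, 14, 15, 20, 21, 24, 28, 36, 40, 42, 52, 54, 66] : Fin 24 → ℤ)
    8 12046501766026474801534708577 16476954146074033163104350713 22 := by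
  decide +kernel

theorem deg24 (m : ℕ) (hm : 2 ≤ m) (r₁ r₂ : ℕ) (h : r₁ + 2 * r₂ = 24) :
    Large 24 r₁ r₂ (excess 24 r₁) m := by
  have h2 : r₂ ≤ 12 := by omega
  interval_cases r₂
  · obtain rfl : r₁ = 24 := by omega
    exact of_ok chk24a ok24a_24 0 _ m (by norm_num) (by decide) hm
  · obtain rfl : r₁ = 22 := by omega
    exact of_ok chk24b ok24b_22 1 _ m (by norm_num) (by decide) hm
  · obtain rfl : r₁ = 20 := by omega
    exact of_ok chk24a ok24a_20 2 _ m (by norm_num) (by decide) hm
  · obtain rfl : r₁ = 18 := by omega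
    exact of_ok chk24b ok24b_18 3 _ m (by norm_num) (by decide) hm
  · obtain rfl : r₁ = 16 := by omega
    exact of_ok chk24a ok24a_16 4 _ m (by norm_num) (by decide) hm
  · obtain rfl : r₁ = 14 := by omega
    exact of_ok chk24b ok24b_14 5 _ m (by norm_num) (by decide) hm
  · obtain rfl : r₁ = 12 := by omega
    exact of_ok chk24a ok24a_12 6 _ m (by norm_num) (by decide) hm
  · obtain rfl : r₁ = 10 := by omega
    exact of_ok chk24b ok24b_10 7 _ m (by norm_num) (by decide) hm
  · obtain rfl : r₁ = 8 := by omega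
    exact of_ok chk24a ok24a_8 8 _ m (by norm_num) (by decide) hm
  · obtain rfl : r₁ = 6 := by omega
    exact of_ok chk24b ok24b_6 9 _ m (by norm_num) (by decide) hm
  · obtain rfl : r₁ = 4 := by omega
    exact of_ok chk24a ok24a_4 10 _ m (by norm_num) (by decide) hm
  · obtain rfl : r₁ = 2 := by omega
    exact of_ok chk24b ok24b_2 11 _ m (by norm_num) (by decide) hm
  · obtain rfl : r₁ = 0 := by omega
    exact of_ok chk24a ok24a_0 12 _ m (by norm_num) (by decide) hm

theorem chk25a : Chk (![-52, -48, -40, -32, -28, -26, -24, -22, -21, -15, -14, -6, -5, -4, -2, 2, 6, 10, 12, 16, 24, 32, 36, 40, 44] : Fin 25 → ℤ)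
    (![-20, -16, -8, 0] : Fin 4 → ℤ) 1457231488335262586083737600000 := by
  decide +kernel

theorem ok25a_1 : Ok (![-52, -48, -40, -32, -28, -26, -24, -22, -21, -15, -14, -6, -5, -4, -2, 2, 6, 10, 12, 16, 24, 32, 36, 40, 44] : Fin 25 → ℤ)
    8 362208268149131867381462373474969543569 724416536298263734762924746949939087139 1 := by
  decide +kernel

theorem ok25a_3 : Ok (![-52, -48, -40, -32, -28, -26, -24, -22, -21, -15, -14, -6, -5, -4, -2, 2, 6, 10, 12, 16, 24, 32, 36, 40, 44] : Fin 25 → ℤ)
    8 53632274060093734763251366439286720000 222239383688455299913073459298566399999 3 := by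
  decide +kernel

theorem ok25a_5 : Ok (![-52, -48, -40, -32, -28, -26, -24, -22, -21, -15, -14, -6, -5, -4, -2, 2, 6, 10, 12, 16, 24, 32, 36, 40, 44] : Fin 25 → ℤ)
    8 4117369380686670265922650159023750000 25083850171137193860627475464191999999 5 := by
  decide +kernel

theorem ok25a_7 : Ok (![-52, -48, -40, -32, -28, -26, -24, -22, -21, -15, -14, -6, -5, -4, -2, 2, 6, 10, 12, 16, 24, 32, 36, 40, 44] : Fin 25 → ℤ)
    8 131024583847820354241653223120000000 2572105196829616075143843506514602757 7 := by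
  decide +kernel

theorem ok25a_9 : Ok (![-52, -48, -40, -32, -28, -26, -24, -22, -21, -15, -14, -6, -5, -4, -2, 2, 6, 10, 12, 16, 24, 32, 36, 40, 44] : Fin 25 → ℤ)
    8 1013231999273803266008677070239129 58150267456223283903077548031999999 9 := by
  decide +kernel

theorem ok25a_11 : Ok (![-52, -48, -40, -32, -28, -26, -24, -22, -21, -15, -14, -6, -5, -4, -2, 2, 6, 10, 12, 16, 24, 32, 36, 40, 44] : Fin 25 → ℤ)
    8 34165660262126101226272360675779 525714607799721111180373964999999 11 := by
  decide +kernel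

theorem ok25a_13 : Ok (![-52, -48, -40, -32, -28, -26, -24, -22, -21, -15, -14, -6, -5, -4, -2, 2, 6, 10, 12, 16, 24, 32, 36, 40, 44] : Fin 25 → ℤ)
    8 13948584983341106813946499920997 22978027012440645900175214377087 13 := by
  decide +kernel

theorem ok25a_15 : Ok (![-52, -48, -40, -32, -28, -26, -24, -22, -21, -15, -14, -6, -5, -4, -2, 2, 6, 10, 12, 16, 24, 32, 36, 40, 44] : Fin 25 → ℤ)
    8 2745831721983285277973596638568 7705177299588738876834385676142 15 := by
  decide +kernel

theorem ok25a_17 : Ok (![-52, -48, -40, -32, -28, -26, -24, -22, -21, -15, -14, -6, -5, -4, -2, 2, 6, 10, 12, 16, 24, 32, 36, 40, 44] : Fin 25 → ℤ)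
    8 281954201491277156685047957946 1724667084277050216859733113816 17 := by
  decide +kernel

theorem ok25a_19 : Ok (![-52, -48, -40, -32, -28, -26, -24, -22, -21, -15, -14, -6, -5, -4, -2, 2, 6, 10, 12, 16, 24, 32, 36, 40, 44] : Fin 25 → ℤ)
    32 192976666836011476202274338440 206192574682030863682362506357 19 := by
  decide +kernel

theorem ok25a_21 : Ok (![-52, -48, -40, -32, -28, -26, -24, -22, -21, -15, -14, -6, -5, -4, -2, 2, 6, 10, 12, 16, 24, 32, 36, 40, 44] : Fin 25 → ℤ)
    8 172887791551066362637267097383 176080869763431858432643625153 21 := by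
  decide +kernel

theorem ok25a_23 : Ok (![-52, -48, -40, -32, -28, -26, -24, -22, -21, -15, -14, -6, -5, -4, -2, 2, 6, 10, 12, 16, 24, 32, 36, 40, 44] : Fin 25 → ℤ)
    8 32502376710337528060492877556 106074937710790678364322931701 23 := by
  decide +kernel

theorem ok25a_25 : Ok (![-52, -48, -40, -32, -28, -26, -24, -22, -21, -15, -14, -6, -5, -4, -2, 2, 6, 10, 12, 16, 24, 32, 36, 40, 44] : Fin 25 → ℤ)
    8 1 22587730291879171127371711369 25 := by
  decide +kernel

theorem deg25 (m : ℕ) (hm : 2 ≤ m) (r₁ r₂ : ℕ) (h : r₁ + 2 * r₂ = 25) :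
    Large 25 r₁ r₂ (excess 25 r₁) m := by
  have h2 : r₂ ≤ 12 := by omega
  interval_cases r₂
  · obtain rfl : r₁ = 25 := by omega
    exact of_ok chk25a ok25a_25 0 _ m (by norm_num) (by decide) hm
  · obtain rfl : r₁ = 23 := by omega
    exact of_ok chk25a ok25a_23 1 _ m (by norm_num) (by decide) hm
  · obtain rfl : r₁ = 21 := by omega
    exact of_ok chk25a ok25a_21 2 _ m (by norm_num) (by decide) hm
  · obtain rfl : r₁ = 19 := by omega
    exact of_ok chk25a ok25a_19 3 _ m (by norm_num) (by decide) hm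
  · obtain rfl : r₁ = 17 := by omega
    exact of_ok chk25a ok25a_17 4 _ m (by norm_num) (by decide) hm
  · obtain rfl : r₁ = 15 := by omega
    exact of_ok chk25a ok25a_15 5 _ m (by norm_num) (by decide) hm
  · obtain rfl : r₁ = 13 := by omega
    exact of_ok chk25a ok25a_13 6 _ m (by norm_num) (by decide) hm
  · obtain rfl : r₁ = 11 := by omega
    exact of_ok chk25a ok25a_11 7 _ m (by norm_num) (by decide) hm
  · obtain rfl : r₁ = 9 := by omega
    exact of_ok chk25a ok25a_9 8 _ m (by norm_num) (by decide) hm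
  · obtain rfl : r₁ = 7 := by omega
    exact of_ok chk25a ok25a_7 9 _ m (by norm_num) (by decide) hm
  · obtain rfl : r₁ = 5 := by omega
    exact of_ok chk25a ok25a_5 10 _ m (by norm_num) (by decide) hm
  · obtain rfl : r₁ = 3 := by omega
    exact of_ok chk25a ok25a_3 11 _ m (by norm_num) (by decide) hm
  · obtain rfl : r₁ = 1 := by omega
    exact of_ok chk25a ok25a_1 12 _ m (by norm_num) (by decide) hm

theorem chk26a : Chk (![-100, -96, -84, -76, -72, -60, -48, -34, -31, -25, -18, -13, -2, 2, 13, 18, 25, 31, 34, 48, 60, 72, 76, 84, 96, 100] : Fin 26 → ℤ)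
    (![-32, -20, -4, 4, 20, 32] : Fin 6 → ℤ) 58561395083923606932250279702167552000000 := by
  decide +kernel

theorem ok26a_0 : Ok (![-100, -96, -84, -76, -72, -60, -48, -34, -31, -25, -18, -13, -2, 2, 13, 18, 25, 31, 34, 48, 60, 72, 76, 84, 96, 100] : Fin 26 → ℤ)
    8 259698045957472020618002664658756428728688000000 519396091914944041236005329317512857457376000001 0 := by
  decide +kernel

theorem ok26a_4 : Ok (![-100, -96, -84, -76, -72, -60, -48, -34, -31, -25, -18, -13, -2, 2, 13, 18, 25, 31, 34, 48, 60, 72, 76, 84, 96, 100] : Fin 26 → ℤ)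
    8 5113948714842034309462540130927845048320000000 180413509547812797018902806426187579788229546124 4 := by
  decide +kernel

theorem ok26a_8 : Ok (![-100, -96, -84, -76, -72, -60, -48, -34, -31, -25, -18, -13, -2, 2, 13, 18, 25, 31, 34, 48, 60, 72, 76, 84, 96, 100] : Fin 26 → ℤ)
    8 800467472540515058089454474326578448015110015 3014538189801620224525286814020624449535999999 8 := by
  decide +kernel

theorem ok26a_12 : Ok (![-100, -96, -84, -76, -72, -60, -48, -34, -31, -25, -18, -13, -2, 2, 13, 18, 25, 31, 34, 48, 60, 72, 76, 84, 96, 100] : Fin 26 → ℤ)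
    8 27861336165293368990004757509008666916730177 424779320877456916568173399754944070948643341 12 := by
  decide +kernel

theorem ok26a_16 : Ok (![-100, -96, -84, -76, -72, -60, -48, -34, -31, -25, -18, -13, -2, 2, 13, 18, 25, 31, 34, 48, 60, 72, 76, 84, 96, 100] : Fin 26 → ℤ)
    8 178395298220209368303829900918205994666200 12678382701956664040623819131957905576236446 16 := by
  decide +kernel

theorem ok26a_20 : Ok (![-100, -96, -84, -76, -72, -60, -48, -34, -31, -25, -18, -13, -2, 2, 13, 18, 25, 31, 34, 48, 60, 72, 76, 84, 96, 100] : Fin 26 → ℤ)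
    8 62857312868043322618328935853376283183626 105857951593229782523336991134711807999999 20 := by
  decide +kernel

theorem ok26a_24 : Ok (![-100, -96, -84, -76, -72, -60, -48, -34, -31, -25, -18, -13, -2, 2, 13, 18, 25, 31, 34, 48, 60, 72, 76, 84, 96, 100] : Fin 26 → ℤ)
    8 36164090059050972208603510441103760000000 40560361782684138777402202292130120506075 24 := by
  decide +kernel

theorem ok26a_26 : Ok (![-100, -96, -84, -76, -72, -60, -48, -34, -31, -25, -18, -13, -2, 2, 13, 18, 25, 31, 34, 48, 60, 72, 76, 84, 96, 100] : Fin 26 → ℤ)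
    8 1 24560156869907647992168280227839999999999 26 := by
  decide +kernel

theorem chk26b : Chk (![-101, -95, -83, -77, -71, -67, -65, -53, -47, -41, -35, -26, -23, 23, 26, 35, 41, 47, 53, 65, 67, 71, 77, 83, 95, 101] : Fin 26 → ℤ)
    (![-49, -37, -25, 25, 37, 49] : Fin 6 → ℤ) 1761780343371077363815263946949001216000000 := by
  decide +kernel

theorem ok26b_6 : Ok (![-101, -95, -83, -77, -71, -67, -65, -53, -47, -41, -35, -26, -23, 23, 26, 35, 41, 47, 53, 65, 67, 71, 77, 83, 95, 101] : Fin 26 → ℤ)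
    8 340679342061624305857475911792489000162483806 1642760434986769431135334740107112999348062499 6 := by
  decide +kernel

theorem ok26b_10 : Ok (![-101, -95, -83, -77, -71, -67, -65, -53, -47, -41, -35, -26, -23, 23, 26, 35, 41, 47, 53, 65, 67, 71, 77, 83, 95, 101] : Fin 26 → ℤ)
    8 21826882630770203554021011362869525433873292 207196792832800747422090613019993310040341028 10 := by
  decide +kernel

theorem ok26b_14 : Ok (![-101, -95, -83, -77, -71, -67, -65, -53, -47, -41, -35, -26, -23, 23, 26, 35, 41, 47, 53, 65, 67, 71, 77, 83, 95, 101] : Fin 26 → ℤ)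
    16 7988838373359452163233809622905950516961421 10451503341860441098900662469866081484799999 14 := by
  decide +kernel

theorem ok26b_18 : Ok (![-101, -95, -83, -77, -71, -67, -65, -53, -47, -41, -35, -26, -23, 23, 26, 35, 41, 47, 53, 65, 67, 71, 77, 83, 95, 101] : Fin 26 → ℤ)
    8 3721699631061648587927979316160192007562500 5843266668129466821004547433810846172226529 18 := by
  decide +kernel

theorem ok26b_22 : Ok (![-101, -95, -83, -77, -71, -67, -65, -53, -47, -41, -35, -26, -23, 23, 26, 35, 41, 47, 53, 65, 67, 71, 77, 83, 95, 101] : Fin 26 → ℤ)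
    16 2060576816717952652034113245962616218301689 2384387715548011614342395419015864713132633 22 := by
  decide +kernel

theorem chk26c : Chk (![-33, -22, -16, -10, -5, -4, -3, -1, 1, 3, 7, 9, 10, 13, 18, 20, 21, 22, 26, 28, 30, 32, 33, 39, 45, 56] : Fin 26 → ℤ)
    (![0, 6, 17, 23] : Fin 4 → ℤ) 64556382564843976654848000000 := by
  decide +kernel

theorem ok26c_2 : Ok (![-33, -22, -16, -10, -5, -4, -3, -1, 1, 3, 7, 9, 10, 13, 18, 20, 21, 22, 26, 28, 30, 32, 33, 39, 45, 56] : Fin 26 → ℤ)
    8 27208014700820541994853707015193518080000 28335397587418104091344209976235403520666 2 := by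
  decide +kernel

theorem deg26 (m : ℕ) (hm : 2 ≤ m) (r₁ r₂ : ℕ) (h : r₁ + 2 * r₂ = 26) :
    Large 26 r₁ r₂ (excess 26 r₁) m := by
  have h2 : r₂ ≤ 13 := by omega
  interval_cases r₂
  · obtain rfl : r₁ = 26 := by omega
    exact of_ok chk26a ok26a_26 0 _ m (by norm_num) (by decide) hm
  · obtain rfl : r₁ = 24 := by omega
    exact of_ok chk26a ok26a_24 1 _ m (by norm_num) (by decide) hm
  · obtain rfl : r₁ = 22 := by omega
    exact of_ok chk26b ok26b_22 2 _ m (by norm_num) (by decide) hm
  · obtain rfl : r₁ = 20 := by omega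
    exact of_ok chk26a ok26a_20 3 _ m (by norm_num) (by decide) hm
  · obtain rfl : r₁ = 18 := by omega
    exact of_ok chk26b ok26b_18 4 _ m (by norm_num) (by decide) hm
  · obtain rfl : r₁ = 16 := by omega
    exact of_ok chk26a ok26a_16 5 _ m (by norm_num) (by decide) hm
  · obtain rfl : r₁ = 14 := by omega
    exact of_ok chk26b ok26b_14 6 _ m (by norm_num) (by decide) hm
  · obtain rfl : r₁ = 12 := by omega
    exact of_ok chk26a ok26a_12 7 _ m (by norm_num) (by decide) hm
  · obtain rfl : r₁ = 10 := by omega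
    exact of_ok chk26b ok26b_10 8 _ m (by norm_num) (by decide) hm
  · obtain rfl : r₁ = 8 := by omega
    exact of_ok chk26a ok26a_8 9 _ m (by norm_num) (by decide) hm
  · obtain rfl : r₁ = 6 := by omega
    exact of_ok chk26b ok26b_6 10 _ m (by norm_num) (by decide) hm
  · obtain rfl : r₁ = 4 := by omega
    exact of_ok chk26a ok26a_4 11 _ m (by norm_num) (by decide) hm
  · obtain rfl : r₁ = 2 := by omega
    exact of_ok chk26c ok26c_2 12 _ m (by norm_num) (by decide) hm
  · obtain rfl : r₁ = 0 := by omega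
    exact of_ok chk26a ok26a_0 13 _ m (by norm_num) (by decide) hm

theorem chk27a : Chk (![-33, -27, -18, -15, -12, -9, -4, -3, -1, 1, 5, 8, 10, 14, 15, 22, 24, 26, 27, 28, 30, 33, 39, 42, 45, 48, 56] : Fin 27 → ℤ)
    (![0, 6, 12, 21] : Fin 4 → ℤ) 53314543133866740943945728000000 := by
  decide +kernel

theorem ok27a_1 : Ok (![-33, -27, -18, -15, -12, -9, -4, -3, -1, 1, 5, 8, 10, 14, 15, 22, 24, 26, 27, 28, 30, 33, 39, 42, 45, 48, 56] : Fin 27 → ℤ)
    8 122543598369414865421137984769218314240000 245087196738829730842275969538436628480001 1 := by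
  decide +kernel

theorem ok27a_3 : Ok (![-33, -27, -18, -15, -12, -9, -4, -3, -1, 1, 5, 8, 10, 14, 15, 22, 24, 26, 27, 28, 30, 33, 39, 42, 45, 48, 56] : Fin 27 → ℤ)
    8 18405084735763526635858100290397184000000 50965666620232229596820863136563199999999 3 := by
  decide +kernel

theorem ok27a_5 : Ok (![-33, -27, -18, -15, -12, -9, -4, -3, -1, 1, 5, 8, 10, 14, 15, 22, 24, 26, 27, 28, 30, 33, 39, 42, 45, 48, 56] : Fin 27 → ℤ)
    8 2873057623524367410244092997829797500 7204707907363476014849716036443080076109 5 := by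
  decide +kernel

theorem ok27a_7 : Ok (![-33, -27, -18, -15, -12, -9, -4, -3, -1, 1, 5, 8, 10, 14, 15, 22, 24, 26, 27, 28, 30, 33, 39, 42, 45, 48, 56] : Fin 27 → ℤ)
    8 434295414898731694664558440547810616 1687394043182071456188345778169328116 7 := by
  decide +kernel

theorem ok27a_9 : Ok (![-33, -27, -18, -15, -12, -9, -4, -3, -1, 1, 5, 8, 10, 14, 15, 22, 24, 26, 27, 28, 30, 33, 39, 42, 45, 48, 56] : Fin 27 → ℤ)
    8 188040851731285809823474024806964286 250675564155112089272472404356600644 9 := by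
  decide +kernel

theorem ok27a_11 : Ok (![-33, -27, -18, -15, -12, -9, -4, -3, -1, 1, 5, 8, 10, 14, 15, 22, 24, 26, 27, 28, 30, 33, 39, 42, 45, 48, 56] : Fin 27 → ℤ)
    8 20966235150066311951662794245333182 79998250107782803509014302668052208 11 := by
  decide +kernel

theorem ok27a_13 : Ok (![-33, -27, -18, -15, -12, -9, -4, -3, -1, 1, 5, 8, 10, 14, 15, 22, 24, 26, 27, 28, 30, 33, 39, 42, 45, 48, 56] : Fin 27 → ℤ)
    8 281853189070115376922578209317017 9458483773932892756861253955027808 13 := by
  decide +kernel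

theorem ok27a_15 : Ok (![-33, -27, -18, -15, -12, -9, -4, -3, -1, 1, 5, 8, 10, 14, 15, 22, 24, 26, 27, 28, 30, 33, 39, 42, 45, 48, 56] : Fin 27 → ℤ)
    8 106831051155028871755178123948659 143100480349789632155566079999999 15 := by
  decide +kernel

theorem ok27a_17 : Ok (![-33, -27, -18, -15, -12, -9, -4, -3, -1, 1, 5, 8, 10, 14, 15, 22, 24, 26, 27, 28, 30, 33, 39, 42, 45, 48, 56] : Fin 27 → ℤ)
    8 38961785271313874296576168781780 64755223000940309328691199999999 17 := by
  decide +kernel

theorem ok27a_19 : Ok (![-33, -27, -18, -15, -12, -9, -4, -3, -1, 1, 5, 8, 10, 14, 15, 22, 24, 26, 27, 28, 30, 33, 39, 42, 45, 48, 56] : Fin 27 → ℤ)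
    64 21962379297381520034947157508571 22747497817719293945120637869499 19 := by
  decide +kernel

theorem ok27a_21 : Ok (![-33, -27, -18, -15, -12, -9, -4, -3, -1, 1, 5, 8, 10, 14, 15, 22, 24, 26, 27, 28, 30, 33, 39, 42, 45, 48, 56] : Fin 27 → ℤ)
    8 18014606532583444834293272326172 20704024067489183245790085119999 21 := by
  decide +kernel

theorem ok27a_23 : Ok (![-33, -27, -18, -15, -12, -9, -4, -3, -1, 1, 5, 8, 10, 14, 15, 22, 24, 26, 27, 28, 30, 33, 39, 42, 45, 48, 56] : Fin 27 → ℤ)
    8 8792478402064023510837437221834 11193017087260967431116517716740 23 := by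
  decide +kernel

theorem ok27a_25 : Ok (![-33, -27, -18, -15, -12, -9, -4, -3, -1, 1, 5, 8, 10, 14, 15, 22, 24, 26, 27, 28, 30, 33, 39, 42, 45, 48, 56] : Fin 27 → ℤ)
    8 1544459860766998429382057836458 6274035706961940687433111838440 25 := by
  decide +kernel

theorem ok27a_27 : Ok (![-33, -27, -18, -15, -12, -9, -4, -3, -1, 1, 5, 8, 10, 14, 15, 22, 24, 26, 27, 28, 30, 33, 39, 42, 45, 48, 56] : Fin 27 → ℤ)
    8 1 1043527167575347133044676636009 27 := by
  decide +kernel

theorem deg27 (m : ℕ) (hm : 2 ≤ m) (r₁ r₂ : ℕ) (h : r₁ + 2 * r₂ = 27) :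
    Large 27 r₁ r₂ (excess 27 r₁) m := by
  have h2 : r₂ ≤ 13 := by omega
  interval_cases r₂
  · obtain rfl : r₁ = 27 := by omega
    exact of_ok chk27a ok27a_27 0 _ m (by norm_num) (by decide) hm
  · obtain rfl : r₁ = 25 := by omega
    exact of_ok chk27a ok27a_25 1 _ m (by norm_num) (by decide) hm
  · obtain rfl : r₁ = 23 := by omega
    exact of_ok chk27a ok27a_23 2 _ m (by norm_num) (by decide) hm
  · obtain rfl : r₁ = 21 := by omega
    exact of_ok chk27a ok27a_21 3 _ m (by norm_num) (by decide) hm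
  · obtain rfl : r₁ = 19 := by omega
    exact of_ok chk27a ok27a_19 4 _ m (by norm_num) (by decide) hm
  · obtain rfl : r₁ = 17 := by omega
    exact of_ok chk27a ok27a_17 5 _ m (by norm_num) (by decide) hm
  · obtain rfl : r₁ = 15 := by omega
    exact of_ok chk27a ok27a_15 6 _ m (by norm_num) (by decide) hm
  · obtain rfl : r₁ = 13 := by omega
    exact of_ok chk27a ok27a_13 7 _ m (by norm_num) (by decide) hm
  · obtain rfl : r₁ = 11 := by omega
    exact of_ok chk27a ok27a_11 8 _ m (by norm_num) (by decide) hm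
  · obtain rfl : r₁ = 9 := by omega
    exact of_ok chk27a ok27a_9 9 _ m (by norm_num) (by decide) hm
  · obtain rfl : r₁ = 7 := by omega
    exact of_ok chk27a ok27a_7 10 _ m (by norm_num) (by decide) hm
  · obtain rfl : r₁ = 5 := by omega
    exact of_ok chk27a ok27a_5 11 _ m (by norm_num) (by decide) hm
  · obtain rfl : r₁ = 3 := by omega
    exact of_ok chk27a ok27a_3 12 _ m (by norm_num) (by decide) hm
  · obtain rfl : r₁ = 1 := by omega
    exact of_ok chk27a ok27a_1 13 _ m (by norm_num) (by decide) hm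

end Pool.Agent.N855.SG
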