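import Pool.Agent.N855.SG.Exc

/-!
# Data and certificates for the degrees from 28 to 30
-/

set_option autoImplicit false
set_option maxRecDepth 100000

namespace Pool.Agent.N855.SG

theorem chk28a : Chk (![-112, -100, -68, -58, -48, -34, -26, -25, -24, -22, -15, -14, -6, -4, 4, 6, 14, 15, 22, 24, 25, 26, 34, 48, 58, 68, 100, 112] : Fin 28 → ℤ)
    (![-20, -8, -2, 2, 8, 20] : Fin 6 → ℤ) 9625165775477008444286598830358528000000 := by
  decide +kernel

theorem ok28a_0 : Ok (![-112, -100, -68, -58, -48, -34, -26, -25, -24, -22, -15, -14, -6, -4, 4, 6, 14, 15, 22, 24, 25, 26, 34, 48, 58, 68, 100, 112] : Fin 28 → ℤ)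
    8 4225236064064706571296790041561569604693663853948880972 8450472128129413142593580083123139209387327707897761945 0 := by
  decide +kernel

theorem ok28a_4 : Ok (![-112, -100, -68, -58, -48, -34, -26, -25, -24, -22, -15, -14, -6, -4, 4, 6, 14, 15, 22, 24, 25, 26, 34, 48, 58, 68, 100, 112] : Fin 28 → ℤ)
    8 9845606158810623137506103427587033043076152384028 2462697139361589015542789548974831674949844881584999999 4 := by
  decide +kernel

theorem ok28a_8 : Ok (![-112, -100, -68, -58, -48, -34, -26, -25, -24, -22, -15, -14, -6, -4, 4, 6, 14, 15, 22, 24, 25, 26, 34, 48, 58, 68, 100, 112] : Fin 28 → ℤ)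
    8 10110114030173999571088468195778873315370095904 5140675872227844355173014745111093556706603689337 8 := by
  decide +kernel

theorem ok28a_12 : Ok (![-112, -100, -68, -58, -48, -34, -26, -25, -24, -22, -15, -14, -6, -4, 4, 6, 14, 15, 22, 24, 25, 26, 34, 48, 58, 68, 100, 112] : Fin 28 → ℤ)
    8 2359254395906662761982005951395555554971 3841483969443859453589868940648791234964237411 12 := by
  decide +kernel

theorem ok28a_16 : Ok (![-112, -100, -68, -58, -48, -34, -26, -25, -24, -22, -15, -14, -6, -4, 4, 6, 14, 15, 22, 24, 25, 26, 34, 48, 58, 68, 100, 112] : Fin 28 → ℤ)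
    16 1456788677726160436959672172483573849563 1653206585144084285674598340898796999999 16 := by
  decide +kernel

theorem ok28a_20 : Ok (![-112, -100, -68, -58, -48, -34, -26, -25, -24, -22, -15, -14, -6, -4, 4, 6, 14, 15, 22, 24, 25, 26, 34, 48, 58, 68, 100, 112] : Fin 28 → ℤ)
    8 946195464287235059006435328195427299909 1153324856651339689782984999054450631166 20 := by
  decide +kernel

theorem ok28a_24 : Ok (![-112, -100, -68, -58, -48, -34, -26, -25, -24, -22, -15, -14, -6, -4, 4, 6, 14, 15, 22, 24, 25, 26, 34, 48, 58, 68, 100, 112] : Fin 28 → ℤ)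
    8 614341574186017347728038554920112304733 661622018736410048767394273590455005008 24 := by
  decide +kernel

theorem ok28a_28 : Ok (![-112, -100, -68, -58, -48, -34, -26, -25, -24, -22, -15, -14, -6, -4, 4, 6, 14, 15, 22, 24, 25, 26, 34, 48, 58, 68, 100, 112] : Fin 28 → ℤ)
    8 1 457953445505205414425233673411276579479 28 := by
  decide +kernel

theorem chk28b : Chk (![-33, -22, -16, -10, -7, -4, -3, -1, 1, 3, 8, 10, 11, 12, 13, 15, 21, 22, 26, 27, 28, 30, 33, 39, 45, 50, 56, 72] : Fin 28 → ℤ)
    (![0, 6, 17, 23] : Fin 4 → ℤ) 191732456217586610664898560000000 := by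
  decide +kernel

theorem ok28b_2 : Ok (![-33, -22, -16, -10, -7, -4, -3, -1, 1, 3, 8, 10, 11, 12, 13, 15, 21, 22, 26, 27, 28, 30, 33, 39, 45, 50, 56, 72] : Fin 28 → ℤ)
    8 469106269915802695372359086265976002969600000 42644272758818736247553254659963868938239999999 2 := by
  decide +kernel

theorem ok28b_6 : Ok (![-33, -22, -16, -10, -7, -4, -3, -1, 1, 3, 8, 10, 11, 12, 13, 15, 21, 22, 26, 27, 28, 30, 33, 39, 45, 50, 56, 72] : Fin 28 → ℤ)
    8 555080254655078118373329709208385133078 16678414718679400310824220597363153553683 6 := by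
  decide +kernel

theorem ok28b_10 : Ok (![-33, -22, -16, -10, -7, -4, -3, -1, 1, 3, 8, 10, 11, 12, 13, 15, 21, 22, 26, 27, 28, 30, 33, 39, 45, 50, 56, 72] : Fin 28 → ℤ)
    8 44007579361557291722157792031368953 10380832514941674087527306699401765344 10 := by
  decide +kernel

theorem ok28b_14 : Ok (![-33, -22, -16, -10, -7, -4, -3, -1, 1, 3, 8, 10, 11, 12, 13, 15, 21, 22, 26, 27, 28, 30, 33, 39, 45, 50, 56, 72] : Fin 28 → ℤ)
    8 651793041403223029404642672054937 856058921405390711772647706459523 14 := by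
  decide +kernel

theorem ok28b_18 : Ok (![-33, -22, -16, -10, -7, -4, -3, -1, 1, 3, 8, 10, 11, 12, 13, 15, 21, 22, 26, 27, 28, 30, 33, 39, 45, 50, 56, 72] : Fin 28 → ℤ)
    8 53674509611089837056360922044404 134855597437156528871178239999999 18 := by
  decide +kernel

theorem ok28b_22 : Ok (![-33, -22, -16, -10, -7, -4, -3, -1, 1, 3, 8, 10, 11, 12, 13, 15, 21, 22, 26, 27, 28, 30, 33, 39, 45, 50, 56, 72] : Fin 28 → ℤ)
    8 13752072182112957954590838142513 29226054344124453743752063620719 22 := by
  decide +kernel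

theorem ok28b_26 : Ok (![-33, -22, -16, -10, -7, -4, -3, -1, 1, 3, 8, 10, 11, 12, 13, 15, 21, 22, 26, 27, 28, 30, 33, 39, 45, 50, 56, 72] : Fin 28 → ℤ)
    8 600148910113256900311373989799 7263485744792161567805752380615 26 := by
  decide +kernel

theorem deg28 (m : ℕ) (hm : 2 ≤ m) (r₁ r₂ : ℕ) (h : r₁ + 2 * r₂ = 28) :
    Large 28 r₁ r₂ (excess 28 r₁) m := by
  have h2 : r₂ ≤ 14 := by omega
  interval_cases r₂
  · obtain rfl : r₁ = 28 := by omega
    exact of_ok chk28a ok28a_28 0 _ m (by norm_num) (by decide) hm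
  · obtain rfl : r₁ = 26 := by omega
    exact of_ok chk28b ok28b_26 1 _ m (by norm_num) (by decide) hm
  · obtain rfl : r₁ = 24 := by omega
    exact of_ok chk28a ok28a_24 2 _ m (by norm_num) (by decide) hm
  · obtain rfl : r₁ = 22 := by omega
    exact of_ok chk28b ok28b_22 3 _ m (by norm_num) (by decide) hm
  · obtain rfl : r₁ = 20 := by omega
    exact of_ok chk28a ok28a_20 4 _ m (by norm_num) (by decide) hm
  · obtain rfl : r₁ = 18 := by omega
    exact of_ok chk28b ok28b_18 5 _ m (by norm_num) (by decide) hm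
  · obtain rfl : r₁ = 16 := by omega
    exact of_ok chk28a ok28a_16 6 _ m (by norm_num) (by decide) hm
  · obtain rfl : r₁ = 14 := by omega
    exact of_ok chk28b ok28b_14 7 _ m (by norm_num) (by decide) hm
  · obtain rfl : r₁ = 12 := by omega
    exact of_ok chk28a ok28a_12 8 _ m (by norm_num) (by decide) hm
  · obtain rfl : r₁ = 10 := by omega
    exact of_ok chk28b ok28b_10 9 _ m (by norm_num) (by decide) hm
  · obtain rfl : r₁ = 8 := by omega
    exact of_ok chk28a ok28a_8 10 _ m (by norm_num) (by decide) hm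
  · obtain rfl : r₁ = 6 := by omega
    exact of_ok chk28b ok28b_6 11 _ m (by norm_num) (by decide) hm
  · obtain rfl : r₁ = 4 := by omega
    exact of_ok chk28a ok28a_4 12 _ m (by norm_num) (by decide) hm
  · obtain rfl : r₁ = 2 := by omega
    exact of_ok chk28b ok28b_2 13 _ m (by norm_num) (by decide) hm
  · obtain rfl : r₁ = 0 := by omega
    exact of_ok chk28a ok28a_0 14 _ m (by norm_num) (by decide) hm

theorem chk29a : Chk (![-33, -24, -21, -18, -15, -12, -9, -7, -6, -5, -3, 1, 3, 8, 9, 10, 13, 16, 20, 22, 24, 26, 27, 28, 33, 39, 42, 45, 54] : Fin 29 → ℤ)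
    (![0, 6, 15, 21] : Fin 4 → ℤ) 3742680927997445214264990105600000 := by
  decide +kernel

theorem ok29a_1 : Ok (![-33, -24, -21, -18, -15, -12, -9, -7, -6, -5, -3, 1, 3, 8, 9, 10, 13, 16, 20, 22, 24, 26, 27, 28, 33, 39, 42, 45, 54] : Fin 29 → ℤ)
    8 1218758871015643629189030432316617572352000000 2437517742031287258378060864633235144704000001 1 := by
  decide +kernel

theorem ok29a_3 : Ok (![-33, -24, -21, -18, -15, -12, -9, -7, -6, -5, -3, 1, 3, 8, 9, 10, 13, 16, 20, 22, 24, 26, 27, 28, 33, 39, 42, 45, 54] : Fin 29 → ℤ)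
    8 10608334104510604820835224021144394375364 464395973388374985716514571617481212040429964 3 := by
  decide +kernel

theorem ok29a_5 : Ok (![-33, -24, -21, -18, -15, -12, -9, -7, -6, -5, -3, 1, 3, 8, 9, 10, 13, 16, 20, 22, 24, 26, 27, 28, 33, 39, 42, 45, 54] : Fin 29 → ℤ)
    32 5871499905400365412585622406753677147176 6419788344065407181473859934663870616237 5 := by
  decide +kernel

theorem ok29a_7 : Ok (![-33, -24, -21, -18, -15, -12, -9, -7, -6, -5, -3, 1, 3, 8, 9, 10, 13, 16, 20, 22, 24, 26, 27, 28, 33, 39, 42, 45, 54] : Fin 29 → ℤ)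
    8 28336091402929741683146950530584067766 5074645758174140961004358262466663625748 7 := by
  decide +kernel

theorem ok29a_9 : Ok (![-33, -24, -21, -18, -15, -12, -9, -7, -6, -5, -3, 1, 3, 8, 9, 10, 13, 16, 20, 22, 24, 26, 27, 28, 33, 39, 42, 45, 54] : Fin 29 → ℤ)
    32 15170796846341162406102124772102625418 15436828879606436606460748326094282935 9 := by
  decide +kernel

theorem ok29a_11 : Ok (![-33, -24, -21, -18, -15, -12, -9, -7, -6, -5, -3, 1, 3, 8, 9, 10, 13, 16, 20, 22, 24, 26, 27, 28, 33, 39, 42, 45, 54] : Fin 29 → ℤ)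
    8 216269127564052692626442507899497580 11269692216465950664950325135848981986 11 := by
  decide +kernel

theorem ok29a_13 : Ok (![-33, -24, -21, -18, -15, -12, -9, -7, -6, -5, -3, 1, 3, 8, 9, 10, 13, 16, 20, 22, 24, 26, 27, 28, 33, 39, 42, 45, 54] : Fin 29 → ℤ)
    8 22477195124371582540107930321903809 113018398224519474390789531638690769 13 := by
  decide +kernel

theorem ok29a_15 : Ok (![-33, -24, -21, -18, -15, -12, -9, -7, -6, -5, -3, 1, 3, 8, 9, 10, 13, 16, 20, 22, 24, 26, 27, 28, 33, 39, 42, 45, 54] : Fin 29 → ℤ)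
    8 6743741900264049405313586424519875 10862214764430944204056166399999999 15 := by
  decide +kernel

theorem ok29a_17 : Ok (![-33, -24, -21, -18, -15, -12, -9, -7, -6, -5, -3, 1, 3, 8, 9, 10, 13, 16, 20, 22, 24, 26, 27, 28, 33, 39, 42, 45, 54] : Fin 29 → ℤ)
    16 3584582767705102375075599146321431 4016229263961159343307489279999999 17 := by
  decide +kernel

theorem ok29a_19 : Ok (![-33, -24, -21, -18, -15, -12, -9, -7, -6, -5, -3, 1, 3, 8, 9, 10, 13, 16, 20, 22, 24, 26, 27, 28, 33, 39, 42, 45, 54] : Fin 29 → ℤ)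
    8 2895034303674343085131894869955485 2905636952051769939492687816835869 19 := by
  decide +kernel

theorem ok29a_21 : Ok (![-33, -24, -21, -18, -15, -12, -9, -7, -6, -5, -3, 1, 3, 8, 9, 10, 13, 16, 20, 22, 24, 26, 27, 28, 33, 39, 42, 45, 54] : Fin 29 → ℤ)
    32 1643745159426080803288179085956158 1811233297552394971856240639999999 21 := by
  decide +kernel

theorem ok29a_23 : Ok (![-33, -24, -21, -18, -15, -12, -9, -7, -6, -5, -3, 1, 3, 8, 9, 10, 13, 16, 20, 22, 24, 26, 27, 28, 33, 39, 42, 45, 54] : Fin 29 → ℤ)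
    32 1225141389676737612118796026223041 1388929218824859253037149028608788 23 := by
  decide +kernel

theorem ok29a_25 : Ok (![-33, -24, -21, -18, -15, -12, -9, -7, -6, -5, -3, 1, 3, 8, 9, 10, 13, 16, 20, 22, 24, 26, 27, 28, 33, 39, 42, 45, 54] : Fin 29 → ℤ)
    8 502408026535341222889661241647194 1059933598747578470943859897119206 25 := by
  decide +kernel

theorem ok29a_27 : Ok (![-33, -24, -21, -18, -15, -12, -9, -7, -6, -5, -3, 1, 3, 8, 9, 10, 13, 16, 20, 22, 24, 26, 27, 28, 33, 39, 42, 45, 54] : Fin 29 → ℤ)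
    8 154792197332324374536781374154625 334002626464307316078776621162460 27 := by
  decide +kernel

theorem ok29a_29 : Ok (![-33, -24, -21, -18, -15, -12, -9, -7, -6, -5, -3, 1, 3, 8, 9, 10, 13, 16, 20, 22, 24, 26, 27, 28, 33, 39, 42, 45, 54] : Fin 29 → ℤ)
    8 1 103871592884451635028139010978546 29 := by
  decide +kernel

theorem deg29 (m : ℕ) (hm : 2 ≤ m) (r₁ r₂ : ℕ) (h : r₁ + 2 * r₂ = 29) :
    Large 29 r₁ r₂ (excess 29 r₁) m := by
  have h2 : r₂ ≤ 14 := by omega
  interval_cases r₂
  · obtain rfl : r₁ = 29 := by omega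
    exact of_ok chk29a ok29a_29 0 _ m (by norm_num) (by decide) hm
  · obtain rfl : r₁ = 27 := by omega
    exact of_ok chk29a ok29a_27 1 _ m (by norm_num) (by decide) hm
  · obtain rfl : r₁ = 25 := by omega
    exact of_ok chk29a ok29a_25 2 _ m (by norm_num) (by decide) hm
  · obtain rfl : r₁ = 23 := by omega
    exact of_ok chk29a ok29a_23 3 _ m (by norm_num) (by decide) hm
  · obtain rfl : r₁ = 21 := by omega
    exact of_ok chk29a ok29a_21 4 _ m (by norm_num) (by decide) hm
  · obtain rfl : r₁ = 19 := by omega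
    exact of_ok chk29a ok29a_19 5 _ m (by norm_num) (by decide) hm
  · obtain rfl : r₁ = 17 := by omega
    exact of_ok chk29a ok29a_17 6 _ m (by norm_num) (by decide) hm
  · obtain rfl : r₁ = 15 := by omega
    exact of_ok chk29a ok29a_15 7 _ m (by norm_num) (by decide) hm
  · obtain rfl : r₁ = 13 := by omega
    exact of_ok chk29a ok29a_13 8 _ m (by norm_num) (by decide) hm
  · obtain rfl : r₁ = 11 := by omega
    exact of_ok chk29a ok29a_11 9 _ m (by norm_num) (by decide) hm
  · obtain rfl : r₁ = 9 := by omega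
    exact of_ok chk29a ok29a_9 10 _ m (by norm_num) (by decide) hm
  · obtain rfl : r₁ = 7 := by omega
    exact of_ok chk29a ok29a_7 11 _ m (by norm_num) (by decide) hm
  · obtain rfl : r₁ = 5 := by omega
    exact of_ok chk29a ok29a_5 12 _ m (by norm_num) (by decide) hm
  · obtain rfl : r₁ = 3 := by omega
    exact of_ok chk29a ok29a_3 13 _ m (by norm_num) (by decide) hm
  · obtain rfl : r₁ = 1 := by omega
    exact of_ok chk29a ok29a_1 14 _ m (by norm_num) (by decide) hm

theorem chk30a : Chk (![-114, -108, -84, -78, -69, -66, -60, -58, -40, -38, -24, -22, -21, -20, -2, 2, 20, 21, 22, 24, 38, 40, 58, 60, 66, 69, 78, 84, 108, 114] : Fin 30 → ℤ)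
    (![-30, -12, -6, 6, 12, 30] : Fin 6 → ℤ) 3892987905087166314104873941908026472529920000000 := by
  decide +kernel

theorem ok30a_0 : Ok (![-114, -108, -84, -78, -69, -66, -60, -58, -40, -38, -24, -22, -21, -20, -2, 2, 20, 21, 22, 24, 38, 40, 58, 60, 66, 69, 78, 84, 108, 114] : Fin 30 → ℤ)
    8 3544008982453766219298111080552731302494732556596915363054 7088017964907532438596222161105462604989465113193830726109 0 := by
  decide +kernel

theorem ok30a_4 : Ok (![-114, -108, -84, -78, -69, -66, -60, -58, -40, -38, -24, -22, -21, -20, -2, 2, 20, 21, 22, 24, 38, 40, 58, 60, 66, 69, 78, 84, 108, 114] : Fin 30 → ℤ)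
    8 150175685962479792254104227277946603361333280747552676 2362672654969177479532074053701820868329821704397943575369 4 := by
  decide +kernel

theorem ok30a_8 : Ok (![-114, -108, -84, -78, -69, -66, -60, -58, -40, -38, -24, -22, -21, -20, -2, 2, 20, 21, 22, 24, 38, 40, 58, 60, 66, 69, 78, 84, 108, 114] : Fin 30 → ℤ)
    8 193160283446685998729976929678312541275297377809240 91499571417681874577890261887544727409052410171076946 8 := by
  decide +kernel

theorem ok30a_12 : Ok (![-114, -108, -84, -78, -69, -66, -60, -58, -40, -38, -24, -22, -21, -20, -2, 2, 20, 21, 22, 24, 38, 40, 58, 60, 66, 69, 78, 84, 108, 114] : Fin 30 → ℤ)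
    8 16828956195184482469163954810459916028755273597657 132124883385805846944806008671107098581202844285421 12 := by
  decide +kernel

theorem ok30a_16 : Ok (![-114, -108, -84, -78, -69, -66, -60, -58, -40, -38, -24, -22, -21, -20, -2, 2, 20, 21, 22, 24, 38, 40, 58, 60, 66, 69, 78, 84, 108, 114] : Fin 30 → ℤ)
    8 1581953329798949822352661931252014426691603285736 12274535906998096665739645592776837365551999999999 16 := by
  decide +kernel

theorem ok30a_20 : Ok (![-114, -108, -84, -78, -69, -66, -60, -58, -40, -38, -24, -22, -21, -20, -2, 2, 20, 21, 22, 24, 38, 40, 58, 60, 66, 69, 78, 84, 108, 114] : Fin 30 → ℤ)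
    8 1100290918351332872078504394916884570852654600000 1132683155171715659194532732332787404282214999999 20 := by
  decide +kernel

theorem ok30a_22 : Ok (![-114, -108, -84, -78, -69, -66, -60, -58, -40, -38, -24, -22, -21, -20, -2, 2, 20, 21, 22, 24, 38, 40, 58, 60, 66, 69, 78, 84, 108, 114] : Fin 30 → ℤ)
    8 15470953782944692287112832163194761390735646322 742784999635957419032292805815822842855423999999 22 := by
  decide +kernel

theorem ok30a_26 : Ok (![-114, -108, -84, -78, -69, -66, -60, -58, -40, -38, -24, -22, -21, -20, -2, 2, 20, 21, 22, 24, 38, 40, 58, 60, 66, 69, 78, 84, 108, 114] : Fin 30 → ℤ)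
    8 2581768044554059169017369200484962178039945639 10027508428404309597888319933544919276516425329 26 := by
  decide +kernel

theorem ok30a_30 : Ok (![-114, -108, -84, -78, -69, -66, -60, -58, -40, -38, -24, -22, -21, -20, -2, 2, 20, 21, 22, 24, 38, 40, 58, 60, 66, 69, 78, 84, 108, 114] : Fin 30 → ℤ)
    8 1 1862662600164997803688940063713800049865869218 30 := by
  decide +kernel

theorem chk30b : Chk (![-22, -12, -11, -7, -5, -4, -2, -1, 1, 2, 3, 7, 8, 9, 14, 16, 17, 18, 20, 21, 24, 25, 27, 28, 30, 34, 35, 40, 45, 55] : Fin 30 → ℤ)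
    (![0, 10, 13, 23] : Fin 4 → ℤ) 113483212666125984202752000000000 := by
  decide +kernel

theorem ok30b_2 : Ok (![-22, -12, -11, -7, -5, -4, -2, -1, 1, 2, 3, 7, 8, 9, 14, 16, 17, 18, 20, 21, 24, 25, 27, 28, 30, 34, 35, 40, 45, 55] : Fin 30 → ℤ)
    8 106929704422473229380433035404759040000000000 4568136484500155278241413834875543672429462828 2 := by
  decide +kernel

theorem ok30b_6 : Ok (![-22, -12, -11, -7, -5, -4, -2, -1, 1, 2, 3, 7, 8, 9, 14, 16, 17, 18, 20, 21, 24, 25, 27, 28, 30, 34, 35, 40, 45, 55] : Fin 30 → ℤ)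
    8 38661198782677203646972275792247149689 1450704532013350338650981600233619804719 6 := by
  decide +kernel

theorem ok30b_10 : Ok (![-22, -12, -11, -7, -5, -4, -2, -1, 1, 2, 3, 7, 8, 9, 14, 16, 17, 18, 20, 21, 24, 25, 27, 28, 30, 34, 35, 40, 45, 55] : Fin 30 → ℤ)
    8 2708889011066869704214783231606769 979993080391218369537245183999999999 10 := by
  decide +kernel

theorem chk30c : Chk (![-59, -53, -47, -41, -35, -29, -27, -26, -23, -21, -17, -15, -11, -7, -5, 5, 7, 11, 15, 17, 21, 23, 26, 27, 29, 35, 41, 47, 53, 59] : Fin 30 → ℤ)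
    (![-25, -19, -13, 13, 19, 25] : Fin 6 → ℤ) 2965726136293667673641518519812096000000 := by
  decide +kernel

theorem ok30c_14 : Ok (![-59, -53, -47, -41, -35, -29, -27, -26, -23, -21, -17, -15, -11, -7, -5, 5, 7, 11, 15, 17, 21, 23, 26, 27, 29, 35, 41, 47, 53, 59] : Fin 30 → ℤ)
    8 6611003726965591486200067705436381250000 41449718165674517713557003068138093062499 14 := by
  decide +kernel

theorem ok30c_18 : Ok (![-59, -53, -47, -41, -35, -29, -27, -26, -23, -21, -17, -15, -11, -7, -5, 5, 7, 11, 15, 17, 21, 23, 26, 27, 29, 35, 41, 47, 53, 59] : Fin 30 → ℤ)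
    8 1976901172399945156427287489270203701435 3665648484044102827171785159475199999999 18 := by
  decide +kernel

theorem chk30d : Chk (![-59, -55, -51, -47, -43, -39, -35, -31, -27, -23, -9, -7, -5, -3, -1, 1, 3, 5, 7, 9, 23, 27, 31, 35, 39, 43, 47, 51, 55, 59] : Fin 30 → ℤ)
    (![-29, -21, -17, 17, 21, 29] : Fin 6 → ℤ) 5259462985168455396805878193821057024000000 := by
  decide +kernel

theorem ok30d_24 : Ok (![-59, -55, -51, -47, -43, -39, -35, -31, -27, -23, -9, -7, -5, -3, -1, 1, 3, 5, 7, 9, 23, 27, 31, 35, 39, 43, 47, 51, 55, 59] : Fin 30 → ℤ)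
    8 231264554259241331217287947156315225109 1874774226418516007173415031103758381685 24 := by
  decide +kernel

theorem ok30d_28 : Ok (![-59, -55, -51, -47, -43, -39, -35, -31, -27, -23, -9, -7, -5, -3, -1, 1, 3, 5, 7, 9, 23, 27, 31, 35, 39, 43, 47, 51, 55, 59] : Fin 30 → ℤ)
    8 111568619845030403500867056452445987730 140017608585351594335418156495483006077 28 := by
  decide +kernel

theorem deg30 (m : ℕ) (hm : 2 ≤ m) (r₁ r₂ : ℕ) (h : r₁ + 2 * r₂ = 30) :
    Large 30 r₁ r₂ (excess 30 r₁) m := by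
  have h2 : r₂ ≤ 15 := by omega
  interval_cases r₂
  · obtain rfl : r₁ = 30 := by omega
    exact of_ok chk30a ok30a_30 0 _ m (by norm_num) (by decide) hm
  · obtain rfl : r₁ = 28 := by omega
    exact of_ok chk30d ok30d_28 1 _ m (by norm_num) (by decide) hm
  · obtain rfl : r₁ = 26 := by omega
    exact of_ok chk30a ok30a_26 2 _ m (by norm_num) (by decide) hm
  · obtain rfl : r₁ = 24 := by omega
    exact of_ok chk30d ok30d_24 3 _ m (by norm_num) (by decide) hm
  · obtain rfl : r₁ = 22 := by omega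
    exact of_ok chk30a ok30a_22 4 _ m (by norm_num) (by decide) hm
  · obtain rfl : r₁ = 20 := by omega
    exact of_ok chk30a ok30a_20 5 _ m (by norm_num) (by decide) hm
  · obtain rfl : r₁ = 18 := by omega
    exact of_ok chk30c ok30c_18 6 _ m (by norm_num) (by decide) hm
  · obtain rfl : r₁ = 16 := by omega
    exact of_ok chk30a ok30a_16 7 _ m (by norm_num) (by decide) hm
  · obtain rfl : r₁ = 14 := by omega
    exact of_ok chk30c ok30c_14 8 _ m (by norm_num) (by decide) hm
  · obtain rfl : r₁ = 12 := by omega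
    exact of_ok chk30a ok30a_12 9 _ m (by norm_num) (by decide) hm
  · obtain rfl : r₁ = 10 := by omega
    exact of_ok chk30b ok30b_10 10 _ m (by norm_num) (by decide) hm
  · obtain rfl : r₁ = 8 := by omega
    exact of_ok chk30a ok30a_8 11 _ m (by norm_num) (by decide) hm
  · obtain rfl : r₁ = 6 := by omega
    exact of_ok chk30b ok30b_6 12 _ m (by norm_num) (by decide) hm
  · obtain rfl : r₁ = 4 := by omega
    exact of_ok chk30a ok30a_4 13 _ m (by norm_num) (by decide) hm
  · obtain rfl : r₁ = 2 := by omega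
    exact of_ok chk30b ok30b_2 14 _ m (by norm_num) (by decide) hm
  · obtain rfl : r₁ = 0 := by omega
    exact of_ok chk30a ok30a_0 15 _ m (by norm_num) (by decide) hm

end Pool.Agent.N855.SG
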