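import Pool.Agent.N855.SG.Fld

/-!
# The excess of the rank over the number of complex places
-/

set_option autoImplicit false

namespace Pool.Agent.N855.SG

/-- the excess of the `m`-rank over `r₂` for the fields of degree `n` with `r₁` real places -/
def excess (n r₁ : ℕ) : ℕ :=
  if n ≤ 7 ∨ n = 9 then n - 1
  else if n = 8 ∧ r₁ % 4 = 0 then 7
  else if n = 12 ∧ r₁ % 4 = 0 then 11
  else if n = 10 ∧ r₁ % 4 = 0 then 9
  else if n % 4 = 2 ∧ ¬ (n = 18 ∧ r₁ = 2) ∧ ¬ (n = 26 ∧ r₁ = 2) ∧ ¬ (n = 30 ∧ r₁ = 2) ∧ ¬ (n = 30 ∧ r₁ = 6) ∧ ¬ (n = 30 ∧ r₁ = 10) then 6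
  else if n % 4 = 0 ∧ r₁ % 4 = 0 then 6
  else if n = 11 ∨ n = 15 then 5
  else 4

end Pool.Agent.N855.SG
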