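import Pool.Agent.N855.SG.Cert
import Pool.Agent.W289.CG.Fin

/-!
# The fields for given data and a certificate for the number of real zeros
-/

set_option autoImplicit false

namespace Pool.Agent.N855.SG

open NumberField Polynomial Pool.Agent.W289.CG

/-- there are number fields of degree `n` and signature `(r₁, r₂)`, of arbitrarily large discriminant,
whose class group contains `(ℤ/m)^(r₂ + κ)` -/
def Large (n r₁ r₂ κ m : ℕ) : Prop :=
  ∀ N : ℕ, ∃ (K : Type) (_ : Field K) (_ : NumberField K), Module.finrank ℚ K = n ∧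
    InfinitePlace.nrRealPlaces K = r₁ ∧ InfinitePlace.nrComplexPlaces K = r₂ ∧
    (N : ℤ) < |discr K| ∧
    ∃ f : Multiplicative (Fin (r₂ + κ) → ZMod m) →* ClassGroup (𝓞 K), Function.Injective f

/-- the fields for given data, when the number of real solutions is known in an interval -/
theorem of_data {n k : ℕ} (hn : 2 ≤ n) (hk : 1 ≤ k) (D : Dat n k) (r₁ : ℕ) (v₁ v₂ : ℝ) (h₁ : 0 < v₁)
    (h₁₂ : v₁ < v₂) (hcount : ∀ v, v₁ < v → v < v₂ →
      {X : ℝ | ∏ i, (X - (D.a i : ℝ)) = - v}.ncard = r₁) (m N : ℕ) (hm : 2 ≤ m) :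
    ∃ (K : Type) (_ : Field K) (_ : NumberField K), Module.finrank ℚ K = n ∧
      InfinitePlace.nrRealPlaces K = r₁ ∧ (N : ℤ) < |discr K| ∧
      ∀ R, R + Units.rank K ≤ n + k - 1 →
        ∃ f : Multiplicative (Fin R → ZMod m) →* ClassGroup (𝓞 K), Function.Injective f := by
  have hcR : (0 : ℝ) < D.c := by exact_mod_cast D.hc
  have h₂ : 0 < v₂ := h₁.trans h₁₂
  have hm0 : m ≠ 0 := by omega
  have hmR : (0 : ℝ) < (m : ℝ)⁻¹ := by positivity
  set x : ℝ := (1 + D.c / v₂) ^ ((m : ℝ)⁻¹) with hx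
  set y : ℝ := (1 + D.c / v₁) ^ ((m : ℝ)⁻¹) with hy
  have hx0 : 0 ≤ 1 + D.c / v₂ := by positivity
  have hy0 : 0 ≤ 1 + D.c / v₁ := by positivity
  have hxm : x ^ m = 1 + D.c / v₂ := Real.rpow_inv_natCast_pow hx0 hm0
  have hym : y ^ m = 1 + D.c / v₁ := Real.rpow_inv_natCast_pow hy0 hm0
  have hx1 : 1 ≤ x := Real.one_le_rpow (by
    have : 0 < D.c / v₂ := div_pos hcR h₂
    linarith) hmR.le
  have hxy : x < y := Real.rpow_lt_rpow hx0 (by
    have : D.c / v₂ < D.c / v₁ := div_lt_div_of_pos_left hcR h₁ h₁₂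
    linarith) hmR
  obtain ⟨s, t, K, hK1, hK2, hs, hxs, hys, hfr, hdisc, hreal, hcl⟩ :=
    core (Pool.Agent.W930.CG.cls Pool.Agent.W240.CG.grp Pool.Agent.W125.CG.uni)
      Pool.Agent.W64.CG.val Pool.Agent.W405.CG.loc Pool.Agent.W290.CG.emb
      Pool.Agent.W349.CG.mu Pool.Agent.W349.CG.red Pool.Agent.W349.CG.WeilT.main
      Pool.Agent.W505.CG.root Pool.Agent.W505.CG.st Pool.Agent.W505.CG.irr
      Pool.Agent.W505.CG.disc Pool.Agent.W240.CG.pl hn hk D m N hm x y hx1 hxy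
  refine ⟨K, hK1, hK2, hfr, ?_, hdisc, hcl⟩
  have hsR : (0 : ℝ) < s := by exact_mod_cast hs
  have htR : (s : ℝ) < t := by nlinarith
  have hsm : (0 : ℝ) < (s : ℝ) ^ m := by positivity
  have h3 : (1 + D.c / v₂) * (s : ℝ) ^ m < (t : ℝ) ^ m := by
    rw [← hxm, ← mul_pow]
    exact pow_lt_pow_left₀ hxs (by positivity) hm0
  have h4 : (t : ℝ) ^ m < (1 + D.c / v₁) * (s : ℝ) ^ m := by
    rw [← hym, ← mul_pow]
    exact pow_lt_pow_left₀ hys (by linarith) hm0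
  have h5 : 0 < (t : ℝ) ^ m - (s : ℝ) ^ m := by
    have h6 : 0 < D.c / v₂ * (s : ℝ) ^ m := by positivity
    nlinarith
  rw [hreal]
  apply hcount
  · rw [lt_div_iff₀ h5]
    have h6 : (t : ℝ) ^ m - (s : ℝ) ^ m < D.c / v₁ * (s : ℝ) ^ m := by nlinarith
    have h7 : v₁ * ((t : ℝ) ^ m - (s : ℝ) ^ m) < v₁ * (D.c / v₁ * (s : ℝ) ^ m) :=
      mul_lt_mul_of_pos_left h6 h₁
    have h8 : v₁ * (D.c / v₁ * (s : ℝ) ^ m) = (s : ℝ) ^ m * D.c := by
      field_simp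
    linarith
  · rw [div_lt_iff₀ h5]
    have h6 : D.c / v₂ * (s : ℝ) ^ m < (t : ℝ) ^ m - (s : ℝ) ^ m := by nlinarith
    have h7 : v₂ * (D.c / v₂ * (s : ℝ) ^ m) < v₂ * ((t : ℝ) ^ m - (s : ℝ) ^ m) :=
      mul_lt_mul_of_pos_left h6 h₂
    have h8 : v₂ * (D.c / v₂ * (s : ℝ) ^ m) = (s : ℝ) ^ m * D.c := by
      field_simp
    linarith

theorem eval_pA {n : ℕ} (a : Fin n → ℤ) (x : ℤ) : (pA a).eval x = ∏ i, (x - a i) := by
  unfold pA
  rw [eval_prod]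
  simp

theorem eval_derA {n : ℕ} (a : Fin n → ℤ) (x : ℤ) : (derivative (pA a)).eval x =
    ∑ i, ∏ l ∈ Finset.univ.erase i, (x - a l) := by
  unfold pA
  rw [derivative_prod_finset, eval_finsetSum]
  refine Finset.sum_congr rfl fun i _ => ?_
  rw [derivative_X_sub_C, mul_one, eval_prod]
  simp

/-- the conditions on the data -/
def Chk {n k : ℕ} (a : Fin n → ℤ) (b : Fin k → ℤ) (c : ℤ) : Prop :=
  1 ≤ k ∧ 2 ≤ n ∧ Function.Injective a ∧ Function.Injective b ∧ 0 < c ∧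
    (∀ j, ∏ i, (b j - a i) = c) ∧
    (∀ j, ∑ i, ∏ l ∈ Finset.univ.erase i, (b j - a l) ≠ 0) ∧ ∀ j, ∃ i, b j < a i

instance {n k : ℕ} (a : Fin n → ℤ) (b : Fin k → ℤ) (c : ℤ) : Decidable (Chk a b c) := by
  unfold Chk
  infer_instance

theorem of_ok {n k : ℕ} {a : Fin n → ℤ} {b : Fin k → ℤ} {c : ℤ} (h : Chk a b c) {s : ℕ} {v₁ v₂ : ℤ}
    {r₁ : ℕ} (ho : Ok a s v₁ v₂ r₁) (r₂ κ m : ℕ) (hr : r₁ + 2 * r₂ = n) (hκ : κ ≤ k) (hm : 2 ≤ m) :
    Large n r₁ r₂ κ m := by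
  intro N
  obtain ⟨hk, hn, ha, hb, hc, hab, hder, hlt⟩ := h
  let D : Dat n k :=
    { a := a
      b := b
      c := c
      ha := ha
      hb := hb
      hc := hc
      hab := fun j => by rw [eval_pA]; exact hab j
      hder := fun j => by rw [eval_derA]; exact hder j
      hlt := hlt }
  obtain ⟨K, hK1, hK2, hfr, hreal, hdisc, hcl⟩ := of_data hn hk D r₁ v₁ v₂
    (by exact_mod_cast ho.2.2.1) (by exact_mod_cast ho.2.2.2.1) (fun v h1 h2 => count ho v h1 h2)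
    m N hm
  have h8 := InfinitePlace.card_add_two_mul_card_eq_rank K
  have h7 := rank_eq K
  refine ⟨K, hK1, hK2, hfr, hreal, ?_, hdisc, hcl (r₂ + κ) ?_⟩
  · omega
  · omega

end Pool.Agent.N855.SG
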